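import Mathlib

set_option autoImplicit false

/-!
Definitions for problem MP_d02918_lc: the languages of ordered rings and of ordered groups,
definability with parameters, the value group `G = v_nat(K^×)` of the natural valuation, and the
map `Φ_K`.
-/

open FirstOrder

universe u

namespace Pool.Agent.Lib.MPd02918

/-- Function symbols of the language of ordered rings. -/
inductive RingFun : ℕ → Type
  | zero : RingFun 0
  | one : RingFun 0
  | neg : RingFun 1
  | add : RingFun 2
  | mul : RingFun 2

/-- Function symbols of the language of ordered groups. -/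
inductive GroupFun : ℕ → Type
  | zero : GroupFun 0
  | neg : GroupFun 1
  | add : GroupFun 2

/-- Relation symbols: one binary symbol `<`. -/
inductive LtRel : ℕ → Type
  | lt : LtRel 2

/-- The language `{+, -, ·, 0, 1, <}` of ordered rings. -/
def LOR : Language := ⟨RingFun, LtRel⟩

/-- The language `{+, -, 0, <}` of ordered groups. -/
def LOG : Language := ⟨GroupFun, LtRel⟩

/-- An ordered field as a structure for the language of ordered rings. -/
@[reducible] def ringStr (K : Type*) [Field K] [LT K] : LOR.Structure K where
  funMap := fun {_} f v => match f, v with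
    | RingFun.zero, _ => 0
    | RingFun.one, _ => 1
    | RingFun.neg, v => - v 0
    | RingFun.add, v => v 0 + v 1
    | RingFun.mul, v => v 0 * v 1
  RelMap := fun {_} r v => match r, v with
    | LtRel.lt, v => v 0 < v 1

/-- An ordered abelian group as a structure for the language of ordered groups. -/
@[reducible] def groupStr (G : Type*) [AddGroup G] [LT G] : LOG.Structure G where
  funMap := fun {_} f v => match f, v with
    | GroupFun.zero, _ => 0
    | GroupFun.neg, v => - v 0
    | GroupFun.add, v => v 0 + v 1
  RelMap := fun {_} r v => match r, v with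
    | LtRel.lt, v => v 0 < v 1

/-- `S ⊆ K` is definable, with parameters, in the ordered field `(K, <)`. -/
def FieldDefinable (K : Type*) [Field K] [LT K] (S : Set K) : Prop :=
  @Set.Definable K Set.univ LOR (ringStr K) (Fin 1) {v | v 0 ∈ S}

/-- `S ⊆ G` is definable, with parameters, in the ordered group `(G, <)`. -/
def GroupDefinable (G : Type*) [AddGroup G] [LT G] (S : Set G) : Prop :=
  @Set.Definable G Set.univ LOG (groupStr G) (Fin 1) {v | v 0 ∈ S}

/-- The value group `G = v_nat(K^×)` of the natural valuation of an ordered field `K`: the ordered
abelian group of archimedean classes of nonzero elements of `K`. Here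
`v_nat(a) = ArchimedeanClass.mk a`, `mk (a * b) = mk a + mk b`, and `mk a ≤ mk b` iff
`|b| ≤ n * |a|` for some natural number `n`; the class of `0` is `⊤` and is not in `G`. -/
abbrev ValueGroup (K : Type*) [Field K] [LinearOrder K] [IsStrictOrderedRing K] : Type _ :=
  AddUnits (ArchimedeanClass K)

/-- `Φ_K(O) = v_nat(O^×)` for a valuation ring `O` of `K`. -/
def Phi (K : Type*) [Field K] [LinearOrder K] [IsStrictOrderedRing K] (O : ValuationSubring K) :
    Set (ValueGroup K) :=
  {g | ∃ u : K, u ≠ 0 ∧ u ∈ O ∧ u⁻¹ ∈ O ∧ (g : ArchimedeanClass K) = ArchimedeanClass.mk u}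

end Pool.Agent.Lib.MPd02918
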