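import Mathlib

set_option autoImplicit false
open Polynomial IntermediateField

/-!
The ordered field `K = F(t_i^(1/n))` inside an ambient ordered field `L`.
-/

namespace Pool.Agent.Lib.MPd02918

/-- the Fermat cubic has no nonconstant point over a simple transcendental extension -/
theorem cubic_const {E L : Type*} [Field E] [CharZero E] [Field L] [LinearOrder L]
    [IsStrictOrderedRing L] [Algebra E L] {s : L} (hs : ∀ p : E[X], aeval s p = 0 → p = 0)
    {x y : L} (hx : x ∈ E⟮s⟯) (hy : y ∈ E⟮s⟯) (h : x ^ 3 + y ^ 3 = 1) :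
    ∃ c : E, algebraMap E L c = x := by
  rw [mem_adjoin_simple_iff] at hx hy
  obtain ⟨p, q, rfl⟩ := hx
  obtain ⟨r, w, rfl⟩ := hy
  by_cases hq : aeval s q = 0
  · exact ⟨0, by simp [hq]⟩
  by_cases hw : aeval s w = 0
  · -- y = 0, so x = 1
    refine ⟨1, ?_⟩
    rw [hw, div_zero, zero_pow (by norm_num), add_zero] at h
    rw [map_one]
    have h1 : (aeval s p / aeval s q) ^ 3 = 1 ^ 3 := by rw [h, one_pow]
    exact ((Odd.strictMono_pow (by decide : Odd 3)).injective h1).symm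
  have hD : q * w ≠ 0 := by
    apply mul_ne_zero
    · rintro rfl; simp at hq
    · rintro rfl; simp at hw
  have heq : (p * w) ^ 3 + (r * q) ^ 3 = (q * w) ^ 3 := by
    rw [← sub_eq_zero]
    apply hs
    simp only [map_sub, map_add, map_mul, map_pow]
    field_simp at h
    linear_combination h
  by_cases hA : p * w = 0
  · refine ⟨0, ?_⟩
    rcases mul_eq_zero.1 hA with h1 | h1
    · simp [h1]
    · rw [h1] at hw; simp at hw
  by_cases hB : r * q = 0
  · refine ⟨1, ?_⟩
    have h1 : aeval s r / aeval s w = 0 := by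
      rcases mul_eq_zero.1 hB with h1 | h1
      · simp [h1]
      · rw [h1] at hq; simp at hq
    rw [h1, zero_pow (by norm_num), add_zero] at h
    rw [map_one]
    have h1 : (aeval s p / aeval s q) ^ 3 = 1 ^ 3 := by rw [h, one_pow]
    exact ((Odd.strictMono_pow (by decide : Odd 3)).injective h1).symm
  obtain ⟨d, a, b, c, ⟨h1, h2, h3⟩, ha, hb, hc⟩ :=
    fermatLastTheoremWith'_polynomial (k := E) (n := 3) le_rfl (by exact_mod_cast (by norm_num)) _ _ _
      hA hB hD heq
  obtain ⟨a', ha', rfl⟩ := Polynomial.isUnit_iff.1 ha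
  obtain ⟨c', hc', rfl⟩ := Polynomial.isUnit_iff.1 hc
  refine ⟨a' / c', ?_⟩
  have hd : aeval s d ≠ 0 := by
    intro hd
    have := congrArg (aeval s) h3
    simp only [map_mul, hd, mul_zero] at this
    rcases mul_eq_zero.1 this with h4 | h4
    · exact hq h4
    · exact hw h4
  have hc'' : algebraMap E L c' ≠ 0 := by
    simpa using hc'.ne_zero
  have h4 := congrArg (aeval s) h1
  have h5 := congrArg (aeval s) h3
  simp only [map_mul, aeval_C] at h4 h5
  rw [map_div₀]
  rw [div_eq_div_iff hc'' hq]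
  apply mul_right_cancel₀ hw
  apply mul_right_cancel₀ hd
  linear_combination (algebraMap E L a' * aeval s d) * h5 - (algebraMap E L c' * aeval s d) * h4

/-- a finite sum of elements with pairwise distinct archimedean classes has the class of one of
them -/
theorem sum_dom {L : Type*} [Field L] [LinearOrder L] [IsStrictOrderedRing L] {ι : Type*}
    (a : ι → L) (s : Finset ι) (hs : s.Nonempty)
    (hd : ∀ i ∈ s, ∀ j ∈ s, i ≠ j → ArchimedeanClass.mk (a i) ≠ ArchimedeanClass.mk (a j)) :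
    ∃ k ∈ s, ArchimedeanClass.mk (∑ i ∈ s, a i) = ArchimedeanClass.mk (a k) := by
  classical
  induction s using Finset.induction_on with
  | empty => exact absurd hs (by simp)
  | insert j s hj ih =>
    rw [Finset.sum_insert hj]
    rcases s.eq_empty_or_nonempty with rfl | hne
    · exact ⟨j, by simp, by simp⟩
    · obtain ⟨k, hk, h⟩ := ih hne (fun i hi i' hi' hii' =>
        hd i (Finset.mem_insert_of_mem hi) i' (Finset.mem_insert_of_mem hi') hii')
      have hjk : j ≠ k := fun h' => hj (h' ▸ hk)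
      have h2 := hd j (Finset.mem_insert_self _ _) k (Finset.mem_insert_of_mem hk) hjk
      rw [← h] at h2
      rcases lt_or_gt_of_ne h2 with h3 | h3
      · exact ⟨j, Finset.mem_insert_self _ _, ArchimedeanClass.mk_add_eq_mk_left h3⟩
      · exact ⟨k, Finset.mem_insert_of_mem hk, by
          rw [ArchimedeanClass.mk_add_eq_mk_right h3, h]⟩

/-- a nonzero polynomial in `s` is dominated by one of its monomials, if no power of `s` is
archimedean equivalent to a nonzero element of the base field -/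
theorem poly_dom {L : Type*} [Field L] [LinearOrder L] [IsStrictOrderedRing L] (E : Subfield L)
    (s : L) (hs0 : 0 < s)
    (hs : ∀ n : ℕ, 0 < n → ∀ e ∈ E, e ≠ 0 →
      ArchimedeanClass.mk (s ^ n) ≠ ArchimedeanClass.mk e)
    (p : E[X]) (hp : p ≠ 0) :
    ∃ k, p.coeff k ≠ 0 ∧
      ArchimedeanClass.mk (aeval s p) = ArchimedeanClass.mk ((p.coeff k : L) * s ^ k) := by
  classical
  have h1 : ∀ i j : ℕ, i < j → p.coeff i ≠ 0 → p.coeff j ≠ 0 →
      ArchimedeanClass.mk ((p.coeff i : L) * s ^ i) ≠ ArchimedeanClass.mk ((p.coeff j : L) * s ^ j) := by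
    intro i j hij hi hj h
    have hi' : (p.coeff i : L) ≠ 0 := by exact_mod_cast hi
    have hj' : (p.coeff j : L) ≠ 0 := by exact_mod_cast hj
    have hsi : s ^ i ≠ 0 := pow_ne_zero _ hs0.ne'
    apply hs (j - i) (by omega) ((p.coeff i : L) / (p.coeff j : L))
      (E.div_mem (p.coeff i).2 (p.coeff j).2) (div_ne_zero hi' hj')
    have h2 : s ^ (j - i) = ((p.coeff j : L) * s ^ j) / ((p.coeff j : L) * s ^ i) := by
      rw [pow_sub₀ _ hs0.ne' hij.le]; field_simp
    have h3 : (p.coeff i : L) / (p.coeff j : L) =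
        ((p.coeff i : L) * s ^ i) / ((p.coeff j : L) * s ^ i) := by
      field_simp
    rw [h2, h3, ArchimedeanClass.mk_div, ArchimedeanClass.mk_div, h]
  have h2 : p.support.Nonempty := Polynomial.support_nonempty.2 hp
  obtain ⟨k, hk, h⟩ := sum_dom (fun i => (p.coeff i : L) * s ^ i) p.support h2 (by
    intro i hi j hj hij
    rcases lt_or_gt_of_ne hij with h | h
    · exact h1 i j h (mem_support_iff.1 hi) (mem_support_iff.1 hj)
    · exact (h1 j i h (mem_support_iff.1 hj) (mem_support_iff.1 hi)).symm)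
  refine ⟨k, mem_support_iff.1 hk, ?_⟩
  rw [← h, aeval_def, eval₂_eq_sum, Polynomial.sum_def]
  rfl

/-- The situation in which the field is built: a subfield `F` of `L` closed under roots of positive
elements, a chain `x i` of rapidly growing elements of `F`, and elements `t i` of `L` in the cut of
`F` determined by the powers of `x i`. -/
structure Setup (L : Type*) [Field L] [LinearOrder L] [IsStrictOrderedRing L]
    (I : Type*) [LinearOrder I] where
  F : Subfield L
  rootF : ∀ c ∈ F, 0 < c → ∀ n : ℕ, 0 < n → ∃ d ∈ F, 0 < d ∧ d ^ n = c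
  rootL : ∀ c : L, 0 < c → ∀ n : ℕ, 0 < n → ∃ d : L, 0 < d ∧ d ^ n = c
  x : I → L
  x_mem : ∀ i, x i ∈ F
  x_big : ∀ i, ∀ n : ℕ, (n : L) < x i
  x_lt : ∀ i j, i < j → ∀ n : ℕ, x i ^ n < x j
  t : I → L
  t_gt : ∀ i, ∀ c ∈ F, ∀ n : ℕ, |c| ≤ x i ^ n → |c| < t i
  t_lt : ∀ i, ∀ c ∈ F, (∀ n : ℕ, x i ^ n < |c|) → t i < |c|

namespace Setup

variable {L : Type*} [Field L] [LinearOrder L] [IsStrictOrderedRing L] {I : Type*} [LinearOrder I]
  (S : Setup L I)

theorem x_pos (i : I) : 0 < S.x i := by simpa using S.x_big i 0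

theorem one_lt_x (i : I) : 1 < S.x i := by simpa using S.x_big i 1

theorem x_lt_t (i : I) : S.x i < S.t i := by
  have := S.t_gt i (S.x i) (S.x_mem i) 1 (by rw [pow_one, abs_of_pos (S.x_pos i)])
  rwa [abs_of_pos (S.x_pos i)] at this

theorem t_pos (i : I) : 0 < S.t i := (S.x_pos i).trans (S.x_lt_t i)

theorem one_lt_t (i : I) : 1 < S.t i := (S.one_lt_x i).trans (S.x_lt_t i)

theorem t_lt_x {i j : I} (h : i < j) : S.t i < S.x j := by
  have := S.t_lt i (S.x j) (S.x_mem j) (by rw [abs_of_pos (S.x_pos j)]; exact S.x_lt i j h)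
  rwa [abs_of_pos (S.x_pos j)] at this

/-- positive `N`-th root of `t i` -/
noncomputable def ρ (i : I) (N : ℕ) : L :=
  if h : 0 < N then (S.rootL (S.t i) (S.t_pos i) N h).choose else 1

theorem ρ_pos (i : I) (N : ℕ) : 0 < S.ρ i N := by
  unfold ρ
  split_ifs with h
  · exact (S.rootL (S.t i) (S.t_pos i) N h).choose_spec.1
  · exact one_pos

theorem ρ_pow (i : I) {N : ℕ} (hN : 0 < N) : S.ρ i N ^ N = S.t i := by
  unfold ρ
  rw [dif_pos hN]
  exact (S.rootL (S.t i) (S.t_pos i) N hN).choose_spec.2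

theorem ρ_mul (i : I) {N M : ℕ} (hN : 0 < N) (hM : 0 < M) : S.ρ i (N * M) ^ M = S.ρ i N := by
  have h1 : (S.ρ i (N * M) ^ M) ^ N = S.ρ i N ^ N := by
    rw [← pow_mul, mul_comm M N, S.ρ_pow i (Nat.mul_pos hN hM), S.ρ_pow i hN]
  exact (pow_left_inj₀ (pow_nonneg (S.ρ_pos _ _).le _) (S.ρ_pos _ _).le hN.ne').1 h1

theorem one_lt_ρ (i : I) {N : ℕ} (hN : 0 < N) : 1 < S.ρ i N := by
  by_contra hc
  push Not at hc
  have : S.ρ i N ^ N ≤ 1 := pow_le_one₀ (S.ρ_pos _ _).le hc
  rw [S.ρ_pow i hN] at this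
  exact absurd (S.one_lt_t i) (not_lt.2 this)

/-- the finite stages -/
def stage (T : Finset I) (N : ℕ) : Subfield L :=
  Subfield.closure ((S.F : Set L) ∪ (fun i => S.ρ i N) '' (T : Set I))

theorem F_le_stage (T : Finset I) (N : ℕ) : S.F ≤ S.stage T N := fun _ hx =>
  Subfield.subset_closure (Or.inl hx)

theorem ρ_mem_stage {T : Finset I} {N : ℕ} {i : I} (hi : i ∈ T) : S.ρ i N ∈ S.stage T N :=
  Subfield.subset_closure (Or.inr ⟨i, hi, rfl⟩)

/-- invariant of the stages: each nonzero element is archimedean equivalent to a monomial -/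
def Inv (T : Finset I) (N : ℕ) : Prop :=
  ∀ e ∈ S.stage T N, e ≠ 0 → ∃ c ∈ S.F, 0 < c ∧ ∃ m : I → ℤ,
    ArchimedeanClass.mk e = ArchimedeanClass.mk (c * ∏ i ∈ T, S.ρ i N ^ m i)

/-- no power of the new root is archimedean equivalent to an element of the previous stage -/
theorem stage_indep {T : Finset I} {N : ℕ} (hN : 0 < N) (hinv : S.Inv T N) {i : I}
    (hi : ∀ j ∈ T, j < i) : ∀ n : ℕ, 0 < n → ∀ e ∈ S.stage T N, e ≠ 0 →
      ArchimedeanClass.mk (S.ρ i N ^ n) ≠ ArchimedeanClass.mk e := by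
  intro n hn e he he0 h
  obtain ⟨c, hc, hc0, m, h1⟩ := hinv e he he0
  rw [h1] at h
  -- take `N`-th powers
  have h2 : ArchimedeanClass.mk (S.t i ^ n) =
      ArchimedeanClass.mk (c ^ N * ∏ j ∈ T, S.t j ^ m j) := by
    have e1 : S.t i ^ n = (S.ρ i N ^ n) ^ N := by
      rw [← pow_mul, mul_comm, pow_mul, S.ρ_pow i hN]
    have e2 : c ^ N * ∏ j ∈ T, S.t j ^ m j = (c * ∏ j ∈ T, S.ρ j N ^ m j) ^ N := by
      rw [mul_pow, ← Finset.prod_pow]
      congr 1
      apply Finset.prod_congr rfl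
      intro j _
      rw [← zpow_natCast, ← zpow_mul, mul_comm (m j), zpow_mul, zpow_natCast, S.ρ_pow j hN]
    rw [e1, e2, ArchimedeanClass.mk_pow N (S.ρ i N ^ n),
      ArchimedeanClass.mk_pow N (c * ∏ j ∈ T, S.ρ j N ^ m j), h]
  -- bound the product
  obtain ⟨d, hd, hd0, hdn⟩ := S.rootF (c ^ N) (S.F.pow_mem hc N) (pow_pos hc0 N) n hn
  set u := ∏ j ∈ T, S.t j ^ m j with hu
  have hu0 : 0 < u := Finset.prod_pos fun j _ => zpow_pos (S.t_pos j) _
  set M := ∑ j ∈ T, (m j).natAbs with hM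
  have hx1 : 1 ≤ S.x i := (S.one_lt_x i).le
  have hub : u ≤ S.x i ^ M := by
    rw [hu, hM, ← Finset.prod_pow_eq_pow_sum]
    apply Finset.prod_le_prod (fun j _ => (zpow_pos (S.t_pos j) _).le)
    intro j hj
    calc S.t j ^ m j ≤ S.t j ^ ((m j).natAbs : ℤ) :=
          zpow_le_zpow_right₀ (S.one_lt_t j).le (Int.le_natAbs)
      _ = S.t j ^ (m j).natAbs := zpow_natCast _ _
      _ ≤ S.x i ^ (m j).natAbs := pow_le_pow_left₀ (S.t_pos j).le (S.t_lt_x (hi j hj)).le _
  have hlb : (S.x i ^ M)⁻¹ ≤ u := by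
    rw [hu, hM, ← Finset.prod_pow_eq_pow_sum, ← Finset.prod_inv_distrib]
    apply Finset.prod_le_prod (fun j _ => (inv_pos.2 (pow_pos (S.x_pos i) _)).le)
    intro j hj
    calc (S.x i ^ (m j).natAbs)⁻¹ ≤ (S.t j ^ (m j).natAbs)⁻¹ := by
          apply inv_anti₀ (pow_pos (S.t_pos j) _)
          exact pow_le_pow_left₀ (S.t_pos j).le (S.t_lt_x (hi j hj)).le _
      _ = S.t j ^ (-((m j).natAbs : ℤ)) := by rw [zpow_neg, zpow_natCast]
      _ ≤ S.t j ^ m j := zpow_le_zpow_right₀ (S.one_lt_t j).le (by omega)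
  have hxM : 1 ≤ S.x i ^ M := one_le_pow₀ hx1
  rw [← hdn] at h2
  obtain ⟨⟨C1, hC1⟩, ⟨C2, hC2⟩⟩ := ArchimedeanClass.mk_eq_mk.1 h2
  rw [abs_of_pos (mul_pos (pow_pos hd0 _) hu0), abs_of_pos (pow_pos (S.t_pos i) _), nsmul_eq_mul]
    at hC1 hC2
  -- two cases
  by_cases hcase : ∃ k : ℕ, |d| ≤ S.x i ^ k
  · -- `d` is in the convex ring; then `t i` would be bounded by a power of `x i`
    obtain ⟨k, hk⟩ := hcase
    rw [abs_of_pos hd0] at hk
    have h3 : S.t i ^ n ≤ (S.x i ^ (1 + k + M)) ^ n := by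
      calc S.t i ^ n ≤ C2 * (d ^ n * u) := hC2
        _ ≤ (S.x i) ^ n * ((S.x i ^ k) ^ n * (S.x i ^ M) ^ n) := by
            apply mul_le_mul
            · calc (C2 : L) ≤ S.x i := (S.x_big i C2).le
                _ ≤ S.x i ^ n := le_self_pow₀ hx1 hn.ne'
            · apply mul_le_mul
              · exact pow_le_pow_left₀ hd0.le hk n
              · exact hub.trans (le_self_pow₀ hxM hn.ne')
              · exact hu0.le
              · exact pow_nonneg (pow_nonneg (S.x_pos i).le _) _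
            · exact (mul_pos (pow_pos hd0 _) hu0).le
            · exact pow_nonneg (S.x_pos i).le _
        _ = (S.x i ^ (1 + k + M)) ^ n := by ring
    have h4 : S.t i ≤ S.x i ^ (1 + k + M) :=
      (pow_le_pow_iff_left₀ (S.t_pos i).le (pow_nonneg (S.x_pos i).le _) hn.ne').1 h3
    have h5 := S.t_gt i (S.x i ^ (1 + k + M)) (S.F.pow_mem (S.x_mem i) _) (1 + k + M)
      (by rw [abs_of_pos (pow_pos (S.x_pos i) _)])
    rw [abs_of_pos (pow_pos (S.x_pos i) _)] at h5
    exact absurd h4 (not_le.2 h5)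
  · -- `d` is above the convex ring
    push Not at hcase
    rw [abs_of_pos hd0] at hcase
    have h3 : d ^ n ≤ (S.x i ^ (1 + M) * S.t i) ^ n := by
      calc d ^ n = (d ^ n * u) * u⁻¹ := by field_simp
        _ ≤ (C1 * S.t i ^ n) * S.x i ^ M := by
            apply mul_le_mul hC1 _ (inv_pos.2 hu0).le _
            · exact (inv_le_comm₀ (pow_pos (S.x_pos i) _) hu0).1 hlb
            · exact mul_nonneg (Nat.cast_nonneg _) (pow_nonneg (S.t_pos i).le _)
        _ ≤ (S.x i ^ n * S.t i ^ n) * (S.x i ^ M) ^ n := by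
            apply mul_le_mul _ (le_self_pow₀ hxM hn.ne') (pow_nonneg (S.x_pos i).le _)
            · exact mul_nonneg (pow_nonneg (S.x_pos i).le _) (pow_nonneg (S.t_pos i).le _)
            · apply mul_le_mul_of_nonneg_right _ (pow_nonneg (S.t_pos i).le _)
              calc (C1 : L) ≤ S.x i := (S.x_big i C1).le
                _ ≤ S.x i ^ n := le_self_pow₀ hx1 hn.ne'
        _ = (S.x i ^ (1 + M) * S.t i) ^ n := by ring
    have h4 : d ≤ S.x i ^ (1 + M) * S.t i :=
      (pow_le_pow_iff_left₀ hd0.le (mul_nonneg (pow_nonneg (S.x_pos i).le _) (S.t_pos i).le)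
        hn.ne').1 h3
    have hxp : 0 < S.x i ^ (1 + M) := pow_pos (S.x_pos i) _
    have h5 := S.t_lt i (d / S.x i ^ (1 + M)) (S.F.div_mem hd (S.F.pow_mem (S.x_mem i) _)) (by
      intro k
      rw [abs_of_pos (div_pos hd0 hxp), lt_div_iff₀ hxp, ← pow_add]
      exact hcase _)
    rw [abs_of_pos (div_pos hd0 hxp), lt_div_iff₀ hxp] at h5
    rw [mul_comm] at h4
    exact absurd h4 (not_le.2 h5)

theorem stage_insert_le {T : Finset I} {N : ℕ} {i : I} {z : L}
    (hz : z ∈ S.stage (insert i T) N) : z ∈ (S.stage T N)⟮S.ρ i N⟯ := by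
  have h1 : S.stage (insert i T) N ≤ ((S.stage T N)⟮S.ρ i N⟯).toSubfield := by
    apply Subfield.closure_le.2
    rintro y (hy | ⟨j, hj, rfl⟩)
    · exact (IntermediateField.algebraMap_mem _ (⟨y, S.F_le_stage T N hy⟩ : S.stage T N))
    · rcases Finset.mem_insert.1 (Finset.mem_coe.1 hj) with rfl | hj
      · exact IntermediateField.mem_adjoin_simple_self _ _
      · exact (IntermediateField.algebraMap_mem _ (⟨_, S.ρ_mem_stage hj⟩ : S.stage T N))
  exact h1 hz

theorem inv_stage {N : ℕ} (hN : 0 < N) (T : Finset I) : S.Inv T N := by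
  induction T using Finset.induction_on_max with
  | empty =>
    intro e he he0
    have : e ∈ S.F := by
      have h1 : S.stage ∅ N ≤ S.F := by
        apply Subfield.closure_le.2
        simp
      exact h1 he
    refine ⟨|e|, ?_, abs_pos.2 he0, fun _ => 0, by simp⟩
    rcases abs_choice e with h | h <;> rw [h]
    · exact this
    · exact S.F.neg_mem this
  | insert i T hi ih =>
    intro e he he0
    have hiT : i ∉ T := fun h => lt_irrefl _ (hi i h)
    have hind := S.stage_indep hN ih hi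
    have h1 := S.stage_insert_le he
    rw [mem_adjoin_simple_iff] at h1
    obtain ⟨p, q, rfl⟩ := h1
    have hp : p ≠ 0 := by rintro rfl; simp at he0
    have hq : q ≠ 0 := by rintro rfl; simp at he0
    obtain ⟨k, hk, h2⟩ := poly_dom (S.stage T N) (S.ρ i N) (S.ρ_pos i N) hind p hp
    obtain ⟨l, hl, h3⟩ := poly_dom (S.stage T N) (S.ρ i N) (S.ρ_pos i N) hind q hq
    obtain ⟨c, hc, hc0, m, h4⟩ := ih ((p.coeff k : L) / (q.coeff l : L))
      ((S.stage T N).div_mem (p.coeff k).2 (q.coeff l).2)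
      (div_ne_zero (by exact_mod_cast hk) (by exact_mod_cast hl))
    refine ⟨c, hc, hc0, fun j => if j = i then (k : ℤ) - l else m j, ?_⟩
    have h5 : ∏ j ∈ insert i T, S.ρ j N ^ (if j = i then (k : ℤ) - l else m j) =
        S.ρ i N ^ ((k : ℤ) - l) * ∏ j ∈ T, S.ρ j N ^ m j := by
      rw [Finset.prod_insert hiT, if_pos rfl]
      congr 1
      apply Finset.prod_congr rfl
      intro j hj
      have hji : j ≠ i := fun h => hiT (h ▸ hj)
      rw [if_neg hji]
    rw [h5, ArchimedeanClass.mk_div, h2, h3, ← ArchimedeanClass.mk_div]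
    have h6 : (p.coeff k : L) * S.ρ i N ^ k / ((q.coeff l : L) * S.ρ i N ^ l) =
        ((p.coeff k : L) / (q.coeff l : L)) * S.ρ i N ^ ((k : ℤ) - l) := by
      rw [zpow_sub₀ (S.ρ_pos i N).ne', zpow_natCast, zpow_natCast]
      field_simp
    rw [h6, ArchimedeanClass.mk_mul, h4, ← ArchimedeanClass.mk_mul]
    congr 1
    ring

theorem sol_stage {N : ℕ} (hN : 0 < N) (T : Finset I) : ∀ x ∈ S.stage T N, ∀ y ∈ S.stage T N,
    x ^ 3 + y ^ 3 = 1 → x ∈ S.F := by
  induction T using Finset.induction_on_max with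
  | empty =>
    intro x hx _ _ _
    have h1 : S.stage ∅ N ≤ S.F := by
      apply Subfield.closure_le.2
      simp
    exact h1 hx
  | insert i T hi ih =>
    intro x hx y hy h
    have hind := S.stage_indep hN (S.inv_stage hN T) hi
    have htr : ∀ p : (S.stage T N)[X], aeval (S.ρ i N) p = 0 → p = 0 := by
      intro p hp
      by_contra hp0
      obtain ⟨k, hk, h2⟩ := poly_dom (S.stage T N) (S.ρ i N) (S.ρ_pos i N) hind p hp0
      rw [hp] at h2
      have h3 : (p.coeff k : L) * S.ρ i N ^ k = 0 := by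
        rw [← ArchimedeanClass.mk_eq_top_iff, ← h2, ArchimedeanClass.mk_zero]
      rcases mul_eq_zero.1 h3 with h4 | h4
      · exact hk (by exact_mod_cast h4)
      · exact (pow_ne_zero _ (S.ρ_pos i N).ne') h4
    obtain ⟨c, hc⟩ := cubic_const htr (S.stage_insert_le hx) (S.stage_insert_le hy) h
    obtain ⟨d, hd⟩ := cubic_const htr (S.stage_insert_le hy) (S.stage_insert_le hx)
      (by rw [add_comm]; exact h)
    refine ih x ?_ y ?_ h
    · rw [← hc]; exact c.2
    · rw [← hd]; exact d.2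

/-- the field -/
def K : Subfield L :=
  Subfield.closure ((S.F : Set L) ∪ {z | ∃ i N, 0 < N ∧ z = S.ρ i N})

theorem stage_mono {T T' : Finset I} (h : T ⊆ T') {N M : ℕ} (hN : 0 < N) (hM : 0 < M) :
    S.stage T N ≤ S.stage T' (N * M) := by
  apply Subfield.closure_le.2
  rintro y (hy | ⟨j, hj, rfl⟩)
  · exact S.F_le_stage _ _ hy
  · show S.ρ j N ∈ S.stage T' (N * M)
    rw [← S.ρ_mul j hN hM]
    exact (S.stage T' (N * M)).pow_mem (S.ρ_mem_stage (h hj)) _

theorem mem_K {z : L} (hz : z ∈ S.K) : ∃ T N, 0 < N ∧ z ∈ S.stage T N := by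
  classical
  induction hz using Subfield.closure_induction with
  | mem x hx =>
    rcases hx with hx | ⟨i, N, hN, rfl⟩
    · exact ⟨∅, 1, one_pos, S.F_le_stage _ _ hx⟩
    · exact ⟨{i}, N, hN, S.ρ_mem_stage (by simp)⟩
  | one => exact ⟨∅, 1, one_pos, Subfield.one_mem _⟩
  | add x y _ _ hx hy =>
    obtain ⟨T, N, hN, h⟩ := hx
    obtain ⟨T', M, hM, h'⟩ := hy
    refine ⟨T ∪ T', N * M, Nat.mul_pos hN hM, Subfield.add_mem _
      (S.stage_mono Finset.subset_union_left hN hM h) ?_⟩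
    rw [mul_comm]
    exact S.stage_mono Finset.subset_union_right hM hN h'
  | neg x _ hx =>
    obtain ⟨T, N, hN, h⟩ := hx
    exact ⟨T, N, hN, Subfield.neg_mem _ h⟩
  | inv x _ hx =>
    obtain ⟨T, N, hN, h⟩ := hx
    exact ⟨T, N, hN, Subfield.inv_mem _ h⟩
  | mul x y _ _ hx hy =>
    obtain ⟨T, N, hN, h⟩ := hx
    obtain ⟨T', M, hM, h'⟩ := hy
    refine ⟨T ∪ T', N * M, Nat.mul_pos hN hM, Subfield.mul_mem _
      (S.stage_mono Finset.subset_union_left hN hM h) ?_⟩
    rw [mul_comm]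
    exact S.stage_mono Finset.subset_union_right hM hN h'

theorem F_le_K : S.F ≤ S.K := fun _ hx => Subfield.subset_closure (Or.inl hx)

theorem ρ_mem_K (i : I) {N : ℕ} (hN : 0 < N) : S.ρ i N ∈ S.K :=
  Subfield.subset_closure (Or.inr ⟨i, N, hN, rfl⟩)

theorem t_mem_K (i : I) : S.t i ∈ S.K := by
  rw [← S.ρ_pow i one_pos, pow_one]; exact S.ρ_mem_K i one_pos

/-- **Definability of `F` in `K`.** -/
theorem mem_F_iff {x : L} : x ∈ S.F ↔ x ∈ S.K ∧ ∃ y ∈ S.K, x ^ 3 + y ^ 3 = 1 := by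
  constructor
  · intro hx
    refine ⟨S.F_le_K hx, ?_⟩
    rcases lt_trichotomy (1 - x ^ 3) 0 with h | h | h
    · obtain ⟨d, hd, _, hd3⟩ := S.rootF (-(1 - x ^ 3))
        (S.F.neg_mem (S.F.sub_mem S.F.one_mem (S.F.pow_mem hx 3))) (by linarith) 3 (by norm_num)
      exact ⟨-d, S.F_le_K (S.F.neg_mem hd), by rw [Odd.neg_pow (by decide), hd3]; ring⟩
    · exact ⟨0, S.K.zero_mem, by linear_combination -h⟩
    · obtain ⟨d, hd, _, hd3⟩ := S.rootF (1 - x ^ 3)
        (S.F.sub_mem S.F.one_mem (S.F.pow_mem hx 3)) h 3 (by norm_num)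
      exact ⟨d, S.F_le_K hd, by rw [hd3]; ring⟩
  · rintro ⟨hx, y, hy, h⟩
    obtain ⟨T, N, hN, h1⟩ := S.mem_K hx
    obtain ⟨T', M, hM, h2⟩ := S.mem_K hy
    classical
    refine S.sol_stage (Nat.mul_pos hN hM) (T ∪ T') x
      (S.stage_mono Finset.subset_union_left hN hM h1) y ?_ h
    rw [mul_comm]
    exact S.stage_mono Finset.subset_union_right hM hN h2

/-- **Divisibility of the value group.** -/
theorem exists_root {z : L} (hz : z ∈ S.K) (hz0 : z ≠ 0) {n : ℕ} (hn : 0 < n) :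
    ∃ w ∈ S.K, w ≠ 0 ∧ ArchimedeanClass.mk (w ^ n) = ArchimedeanClass.mk z := by
  obtain ⟨T, N, hN, h1⟩ := S.mem_K hz
  obtain ⟨c, hc, hc0, m, h2⟩ := S.inv_stage hN T z h1 hz0
  obtain ⟨d, hd, hd0, hdn⟩ := S.rootF c hc hc0 n hn
  refine ⟨d * ∏ i ∈ T, S.ρ i (N * n) ^ m i, ?_, ?_, ?_⟩
  · exact S.K.mul_mem (S.F_le_K hd) (S.K.prod_mem fun i _ =>
      S.K.zpow_mem (S.ρ_mem_K i (Nat.mul_pos hN hn)) _)
  · exact (mul_pos hd0 (Finset.prod_pos fun i _ => zpow_pos (S.ρ_pos _ _) _)).ne'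
  · rw [h2, mul_pow, hdn, ← Finset.prod_pow]
    congr 2
    apply Finset.prod_congr rfl
    intro j _
    rw [← zpow_natCast, ← zpow_mul, mul_comm (m j), zpow_mul, zpow_natCast, S.ρ_mul j hN hn]

end Setup

end Pool.Agent.Lib.MPd02918
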