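import Mathlib
import Pool.Agent.Lib.MPd02918.Defs

set_option autoImplicit false
open FirstOrder

/-!
Quantifier elimination for divisible ordered abelian groups, and non-definability of convex
subgroups other than the two trivial ones.
-/

namespace Pool.Agent.Lib.MPd02918

section QE

variable {G : Type*} [AddCommGroup G] [LinearOrder G] [IsOrderedAddMonoid G]
variable {α : Type*}

theorem nsmul_lt_iff {m : ℕ} (hm : m ≠ 0) {a b : G} : m • a < m • b ↔ a < b :=
  StrictMono.lt_iff_lt (f := fun x : G => m • x) (fun _ _ h => nsmul_lt_nsmul_right hm h)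

/-- affine forms with integer coefficients -/
inductive IsForm {n : ℕ} : ((α → G) → (Fin n → G) → G) → Prop
  | var1 (i : α) : IsForm (fun v _ => v i)
  | var2 (i : Fin n) : IsForm (fun _ xs => xs i)
  | const (g : G) : IsForm (fun _ _ => g)
  | neg {f} : IsForm f → IsForm (fun v xs => - f v xs)
  | add {f g} : IsForm f → IsForm g → IsForm (fun v xs => f v xs + g v xs)

theorem IsForm.nsmul {n : ℕ} {f : (α → G) → (Fin n → G) → G} (hf : IsForm f) (m : ℕ) :
    IsForm (fun v xs => m • f v xs) := by
  induction m with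
  | zero => simpa using IsForm.const (0 : G)
  | succ m ih =>
    have : (fun v xs => (m + 1) • f v xs) = (fun (v : α → G) (xs : Fin n → G) => m • f v xs + f v xs) := by
      funext v xs; rw [succ_nsmul]
    rw [this]
    exact IsForm.add ih hf

/-- decomposition with respect to the last variable -/
theorem IsForm.last {n : ℕ} {f : (α → G) → (Fin (n + 1) → G) → G} (hf : IsForm f) :
    ∃ (a : ℤ) (f' : (α → G) → (Fin n → G) → G), IsForm f' ∧
      ∀ v xs y, f v (Fin.snoc xs y) = a • y + f' v xs := by
  induction hf with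
  | var1 i => exact ⟨0, _, IsForm.var1 i, fun v xs y => by simp⟩
  | var2 i =>
    refine Fin.lastCases ?_ (fun j => ?_) i
    · exact ⟨1, _, IsForm.const 0, fun v xs y => by simp⟩
    · exact ⟨0, _, IsForm.var2 j, fun v xs y => by simp⟩
  | const g => exact ⟨0, _, IsForm.const g, fun v xs y => by simp⟩
  | neg _ ih =>
    obtain ⟨a, f', hf', h⟩ := ih
    exact ⟨-a, _, IsForm.neg hf', fun v xs y => by beta_reduce; rw [h, neg_smul]; abel⟩
  | add _ _ ih1 ih2 =>
    obtain ⟨a, f', hf', h⟩ := ih1
    obtain ⟨b, g', hg', h'⟩ := ih2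
    exact ⟨a + b, _, IsForm.add hf' hg', fun v xs y => by beta_reduce; rw [h, h', add_smul]; abel⟩

/-- atomic conditions -/
inductive Atom {n : ℕ} : ((α → G) → (Fin n → G) → Prop) → Prop
  | pos {f} : IsForm f → Atom (fun v xs => 0 < f v xs)
  | eq {f} : IsForm f → Atom (fun v xs => f v xs = 0)

/-- finite conjunctions of atomic conditions -/
inductive Basic {n : ℕ} : ((α → G) → (Fin n → G) → Prop) → Prop
  | true : Basic (fun _ _ => True)
  | and {P Q} : Atom P → Basic Q → Basic (fun v xs => P v xs ∧ Q v xs)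

/-- finite disjunctions of finite conjunctions of atomic conditions -/
inductive Semi {n : ℕ} : ((α → G) → (Fin n → G) → Prop) → Prop
  | false : Semi (fun _ _ => False)
  | or {P Q} : Basic P → Semi Q → Semi (fun v xs => P v xs ∨ Q v xs)

theorem Basic.congr {n : ℕ} {P Q : (α → G) → (Fin n → G) → Prop} (hP : Basic P)
    (h : ∀ v xs, P v xs ↔ Q v xs) : Basic Q := by
  have : P = Q := by funext v xs; exact propext (h v xs)
  rwa [← this]

theorem Semi.congr {n : ℕ} {P Q : (α → G) → (Fin n → G) → Prop} (hP : Semi P)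
    (h : ∀ v xs, P v xs ↔ Q v xs) : Semi Q := by
  have : P = Q := by funext v xs; exact propext (h v xs)
  rwa [← this]

theorem Atom.basic {n : ℕ} {P : (α → G) → (Fin n → G) → Prop} (hP : Atom P) : Basic P :=
  (Basic.and hP Basic.true).congr fun v xs => by simp

theorem Basic.semi {n : ℕ} {P : (α → G) → (Fin n → G) → Prop} (hP : Basic P) : Semi P :=
  (Semi.or hP Semi.false).congr fun v xs => by simp

theorem Semi.or' {n : ℕ} {P Q : (α → G) → (Fin n → G) → Prop} (hP : Semi P) (hQ : Semi Q) :
    Semi (fun v xs => P v xs ∨ Q v xs) := by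
  induction hP with
  | false => exact hQ.congr fun v xs => by simp
  | or h1 _ ih => exact (Semi.or h1 ih).congr fun v xs => by simp only [or_assoc]

theorem Basic.and' {n : ℕ} {P Q : (α → G) → (Fin n → G) → Prop} (hP : Basic P) (hQ : Basic Q) :
    Basic (fun v xs => P v xs ∧ Q v xs) := by
  induction hP with
  | true => exact hQ.congr fun v xs => by simp
  | and h1 _ ih => exact (Basic.and h1 ih).congr fun v xs => by simp only [and_assoc]

theorem Semi.and_basic {n : ℕ} {P Q : (α → G) → (Fin n → G) → Prop} (hP : Basic P) (hQ : Semi Q) :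
    Semi (fun v xs => P v xs ∧ Q v xs) := by
  induction hQ with
  | false => exact Semi.false.congr fun v xs => by simp
  | or h1 _ ih => exact (Semi.or (hP.and' h1) ih).congr fun v xs => by
                    simp only [and_or_left]

theorem Semi.and' {n : ℕ} {P Q : (α → G) → (Fin n → G) → Prop} (hP : Semi P) (hQ : Semi Q) :
    Semi (fun v xs => P v xs ∧ Q v xs) := by
  induction hP with
  | false => exact Semi.false.congr fun v xs => by simp
  | or h1 _ ih => exact ((Semi.and_basic h1 hQ).or' ih).congr fun v xs => by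
                    simp only [or_and_right]

theorem Atom.not {n : ℕ} {P : (α → G) → (Fin n → G) → Prop} (hP : Atom P) :
    Semi (fun v xs => ¬ P v xs) := by
  cases hP with
  | pos hf =>
    exact ((Atom.pos hf.neg).basic.semi.or' (Atom.eq hf).basic.semi).congr fun v xs => by
      rw [Left.neg_pos_iff, not_lt, le_iff_lt_or_eq]
  | eq hf =>
    exact ((Atom.pos hf.neg).basic.semi.or' (Atom.pos hf).basic.semi).congr fun v xs => by
      rw [Left.neg_pos_iff, ← ne_eq, ne_iff_lt_or_gt]

theorem Basic.not {n : ℕ} {P : (α → G) → (Fin n → G) → Prop} (hP : Basic P) :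
    Semi (fun v xs => ¬ P v xs) := by
  induction hP with
  | true => exact Semi.false.congr fun v xs => by simp
  | and h1 _ ih => exact (h1.not.or' ih).congr fun v xs => by
                    simp only [not_and_or]

theorem Semi.not {n : ℕ} {P : (α → G) → (Fin n → G) → Prop} (hP : Semi P) :
    Semi (fun v xs => ¬ P v xs) := by
  induction hP with
  | false => exact Basic.true.semi.congr fun v xs => by simp
  | or h1 _ ih => exact (h1.not.and' ih).congr fun v xs => by
                    simp only [not_or]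

theorem Basic.forall_list {n : ℕ} {ι : Type*} (l : List ι) (P : ι → (α → G) → (Fin n → G) → Prop)
    (h : ∀ i ∈ l, Basic (P i)) : Basic (fun v xs => ∀ i ∈ l, P i v xs) := by
  induction l with
  | nil => exact Basic.true.congr fun v xs => by simp
  | cons a l ih =>
    have h1 := h a (by simp)
    have h2 := ih (fun i hi => h i (by simp [hi]))
    exact (h1.and' h2).congr fun v xs => by simp

theorem atom_lt {n : ℕ} {f g : (α → G) → (Fin n → G) → G} (hf : IsForm f) (hg : IsForm g) :
    Basic (fun v xs => f v xs < g v xs) :=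
  (Atom.pos (hg.add hf.neg)).basic.congr fun v xs => by
    rw [← sub_eq_add_neg, sub_pos]

theorem atom_eq {n : ℕ} {f g : (α → G) → (Fin n → G) → G} (hf : IsForm f) (hg : IsForm g) :
    Basic (fun v xs => f v xs = g v xs) :=
  (Atom.eq (hf.add hg.neg)).basic.congr fun v xs => by
    rw [← sub_eq_add_neg, sub_eq_zero]

/-- normal form of a basic set with respect to the last variable -/
theorem Basic.last {n : ℕ} {P : (α → G) → (Fin (n + 1) → G) → Prop} (hP : Basic P) :
    ∃ (N : ℕ) (B : (α → G) → (Fin n → G) → Prop)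
      (Ls Us Es : List ((α → G) → (Fin n → G) → G)), 0 < N ∧ Basic B ∧
      (∀ f ∈ Ls, IsForm f) ∧ (∀ f ∈ Us, IsForm f) ∧ (∀ f ∈ Es, IsForm f) ∧
      ∀ v xs y, P v (Fin.snoc xs y) ↔ (B v xs ∧ (∀ f ∈ Ls, f v xs < N • y) ∧
        (∀ f ∈ Us, N • y < f v xs) ∧ (∀ f ∈ Es, N • y = f v xs)) := by
  induction hP with
  | true =>
    exact ⟨1, _, [], [], [], one_pos, Basic.true, by simp, by simp, by simp, fun v xs y => by simp⟩
  | and h1 _ ih =>
    obtain ⟨N, B, Ls, Us, Es, hN, hB, hL, hU, hE, h⟩ := ih
    -- scaling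
    have scale : ∀ m : ℕ, 0 < m → ∀ v xs y, (B v xs ∧ (∀ f ∈ Ls, f v xs < N • y) ∧
        (∀ f ∈ Us, N • y < f v xs) ∧ (∀ f ∈ Es, N • y = f v xs)) ↔
        (B v xs ∧ (∀ f ∈ Ls, m • f v xs < (m * N) • y) ∧
        (∀ f ∈ Us, (m * N) • y < m • f v xs) ∧ (∀ f ∈ Es, (m * N) • y = m • f v xs)) := by
      intro m hm v xs y
      have e1 : ∀ a b : G, m • a < m • b ↔ a < b := fun a b => nsmul_lt_iff hm.ne'
      have e2 : ∀ a b : G, m • a = m • b ↔ a = b := fun a b => nsmul_right_inj hm.ne'
      simp only [mul_smul, e1, e2]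
    have hLm : ∀ m : ℕ, ∀ f ∈ Ls.map (fun f v xs => m • f v xs), IsForm f := by
      intro m f hf
      obtain ⟨g, hg, rfl⟩ := List.mem_map.1 hf
      exact (hL g hg).nsmul m
    have hUm : ∀ m : ℕ, ∀ f ∈ Us.map (fun f v xs => m • f v xs), IsForm f := by
      intro m f hf
      obtain ⟨g, hg, rfl⟩ := List.mem_map.1 hf
      exact (hU g hg).nsmul m
    have hEm : ∀ m : ℕ, ∀ f ∈ Es.map (fun f v xs => m • f v xs), IsForm f := by
      intro m f hf
      obtain ⟨g, hg, rfl⟩ := List.mem_map.1 hf
      exact (hE g hg).nsmul m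
    have signs : ∀ a : ℤ, a = 0 ∨ (∃ m : ℕ, 0 < m ∧ a = m) ∨ (∃ m : ℕ, 0 < m ∧ a = -m) := by
      intro a
      rcases lt_trichotomy a 0 with h | h | h
      · right; right; exact ⟨a.natAbs, by omega, by omega⟩
      · left; exact h
      · right; left; exact ⟨a.natAbs, by omega, by omega⟩
    cases h1 with
    | pos hf =>
      obtain ⟨a, f', hf', h'⟩ := hf.last
      rcases signs a with rfl | ⟨m, hm, rfl⟩ | ⟨m, hm, rfl⟩
      · refine ⟨N, _, Ls, Us, Es, hN, (Atom.pos hf').basic.and' hB, hL, hU, hE, fun v xs y => ?_⟩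
        beta_reduce; rw [h', h]; simp only [zero_smul, zero_add]; tauto
      · -- 0 < m y + f' : N • (-f') < (m N) y
        refine ⟨m * N, B, (fun v xs => N • (- f' v xs)) :: Ls.map (fun f v xs => m • f v xs),
          Us.map (fun f v xs => m • f v xs), Es.map (fun f v xs => m • f v xs),
          Nat.mul_pos hm hN, hB, ?_, hUm m, hEm m, fun v xs y => ?_⟩
        · intro f hf
          rcases List.mem_cons.1 hf with rfl | hf
          · exact hf'.neg.nsmul N
          · exact hLm m f hf
        · beta_reduce; rw [h', h, scale m hm]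
          have : 0 < (m : ℤ) • y + f' v xs ↔ N • (- f' v xs) < (m * N) • y := by
            rw [natCast_zsmul, ← neg_lt_iff_pos_add, mul_comm, mul_smul,
              nsmul_lt_iff hN.ne']
          rw [this]
          simp only [List.mem_cons, List.mem_map, forall_eq_or_imp, forall_exists_index, and_imp,
            forall_apply_eq_imp_iff₂]
          tauto
      · -- 0 < - m y + f' : (m N) y < N f'
        refine ⟨m * N, B, Ls.map (fun f v xs => m • f v xs),
          (fun v xs => N • (f' v xs)) :: Us.map (fun f v xs => m • f v xs),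
          Es.map (fun f v xs => m • f v xs),
          Nat.mul_pos hm hN, hB, hLm m, ?_, hEm m, fun v xs y => ?_⟩
        · intro f hf
          rcases List.mem_cons.1 hf with rfl | hf
          · exact hf'.nsmul N
          · exact hUm m f hf
        · beta_reduce; rw [h', h, scale m hm]
          have : 0 < (-(m : ℤ)) • y + f' v xs ↔ (m * N) • y < N • (f' v xs) := by
            rw [neg_smul, natCast_zsmul, mul_comm, mul_smul,
              nsmul_lt_iff hN.ne', neg_add_eq_sub, sub_pos]
          rw [this]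
          simp only [List.mem_cons, List.mem_map, forall_eq_or_imp, forall_exists_index, and_imp,
            forall_apply_eq_imp_iff₂]
          tauto
    | eq hf =>
      obtain ⟨a, f', hf', h'⟩ := hf.last
      rcases signs a with rfl | ⟨m, hm, rfl⟩ | ⟨m, hm, rfl⟩
      · refine ⟨N, _, Ls, Us, Es, hN, (Atom.eq hf').basic.and' hB, hL, hU, hE, fun v xs y => ?_⟩
        beta_reduce; rw [h', h]; simp only [zero_smul, zero_add]; tauto
      · refine ⟨m * N, B, Ls.map (fun f v xs => m • f v xs),
          Us.map (fun f v xs => m • f v xs),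
          (fun v xs => N • (- f' v xs)) :: Es.map (fun f v xs => m • f v xs),
          Nat.mul_pos hm hN, hB, hLm m, hUm m, ?_, fun v xs y => ?_⟩
        · intro f hf
          rcases List.mem_cons.1 hf with rfl | hf
          · exact hf'.neg.nsmul N
          · exact hEm m f hf
        · beta_reduce; rw [h', h, scale m hm]
          have : (m : ℤ) • y + f' v xs = 0 ↔ (m * N) • y = N • (- f' v xs) := by
            rw [natCast_zsmul, mul_comm, mul_smul, nsmul_right_inj hN.ne', eq_neg_iff_add_eq_zero]
          rw [this]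
          simp only [List.mem_cons, List.mem_map, forall_eq_or_imp, forall_exists_index, and_imp,
            forall_apply_eq_imp_iff₂]
          tauto
      · refine ⟨m * N, B, Ls.map (fun f v xs => m • f v xs),
          Us.map (fun f v xs => m • f v xs),
          (fun v xs => N • (f' v xs)) :: Es.map (fun f v xs => m • f v xs),
          Nat.mul_pos hm hN, hB, hLm m, hUm m, ?_, fun v xs y => ?_⟩
        · intro f hf
          rcases List.mem_cons.1 hf with rfl | hf
          · exact hf'.nsmul N
          · exact hEm m f hf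
        · beta_reduce; rw [h', h, scale m hm]
          have : (-(m : ℤ)) • y + f' v xs = 0 ↔ (m * N) • y = N • (f' v xs) := by
            rw [neg_smul, natCast_zsmul, mul_comm, mul_smul, nsmul_right_inj hN.ne',
              neg_add_eq_zero]
          rw [this]
          simp only [List.mem_cons, List.mem_map, forall_eq_or_imp, forall_exists_index, and_imp,
            forall_apply_eq_imp_iff₂]
          tauto

/-- one-variable elimination: a list of lower bounds and a list of upper bounds -/
theorem exists_between_lists [Nontrivial G] (hdiv : ∀ n : ℕ, 0 < n → ∀ x : G, ∃ y, n • y = x)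
    (Ls Us : List G) (h : ∀ a ∈ Ls, ∀ b ∈ Us, a < b) : ∃ z : G, (∀ a ∈ Ls, a < z) ∧ ∀ b ∈ Us, z < b := by
  have hmid : ∀ a b : G, a < b → ∃ z, a < z ∧ z < b := by
    intro a b hab
    obtain ⟨y, hy⟩ := hdiv 2 two_pos (a + b)
    rw [two_nsmul] at hy
    refine ⟨y, ?_, ?_⟩
    · by_contra hc
      push Not at hc
      have : y + y < a + b := add_lt_add_of_le_of_lt hc (lt_of_le_of_lt hc hab)
      exact absurd hy this.ne
    · by_contra hc
      push Not at hc
      have : a + b < y + y := add_lt_add_of_lt_of_le (lt_of_lt_of_le hab hc) hc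
      exact absurd hy this.ne'
  obtain ⟨e, he⟩ : ∃ e : G, 0 < e := by
    obtain ⟨x, hx⟩ := exists_ne (0 : G)
    rcases lt_or_gt_of_ne hx with h | h
    · exact ⟨-x, neg_pos.2 h⟩
    · exact ⟨x, h⟩
  have hmax : ∀ l : List G, l ≠ [] → ∃ m ∈ l, ∀ a ∈ l, a ≤ m := by
    intro l hl
    induction l with
    | nil => exact absurd rfl hl
    | cons a l ih =>
      by_cases hl' : l = []
      · subst hl'; exact ⟨a, by simp, by simp⟩
      · obtain ⟨m, hm, hm'⟩ := ih hl'
        rcases le_total a m with h1 | h1
        · exact ⟨m, by simp [hm], by simpa [h1] using hm'⟩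
        · exact ⟨a, by simp, by
            intro b hb
            rcases List.mem_cons.1 hb with rfl | hb
            · exact le_rfl
            · exact (hm' b hb).trans h1⟩
  have hmin : ∀ l : List G, l ≠ [] → ∃ m ∈ l, ∀ a ∈ l, m ≤ a := by
    intro l hl
    induction l with
    | nil => exact absurd rfl hl
    | cons a l ih =>
      by_cases hl' : l = []
      · subst hl'; exact ⟨a, by simp, by simp⟩
      · obtain ⟨m, hm, hm'⟩ := ih hl'
        rcases le_total m a with h1 | h1
        · exact ⟨m, by simp [hm], by simpa [h1] using hm'⟩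
        · exact ⟨a, by simp, by
            intro b hb
            rcases List.mem_cons.1 hb with rfl | hb
            · exact le_rfl
            · exact h1.trans (hm' b hb)⟩
  by_cases hL : Ls = []
  · by_cases hU : Us = []
    · exact ⟨0, by simp [hL], by simp [hU]⟩
    · obtain ⟨m, _, hm⟩ := hmin Us hU
      exact ⟨m - e, by simp [hL], fun b hb => lt_of_lt_of_le (sub_lt_self m he) (hm b hb)⟩
  · obtain ⟨l, hl, hl'⟩ := hmax Ls hL
    by_cases hU : Us = []
    · exact ⟨l + e, fun a ha => lt_of_le_of_lt (hl' a ha) (lt_add_of_pos_right l he), by simp [hU]⟩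
    · obtain ⟨m, hm, hm'⟩ := hmin Us hU
      obtain ⟨z, hz1, hz2⟩ := hmid l m (h l hl m hm)
      exact ⟨z, fun a ha => lt_of_le_of_lt (hl' a ha) hz1, fun b hb => lt_of_lt_of_le hz2 (hm' b hb)⟩

theorem Basic.ex [Nontrivial G] (hdiv : ∀ n : ℕ, 0 < n → ∀ x : G, ∃ y, n • y = x)
    {n : ℕ} {P : (α → G) → (Fin (n + 1) → G) → Prop} (hP : Basic P) :
    Basic (fun v xs => ∃ y, P v (Fin.snoc xs y)) := by
  obtain ⟨N, B, Ls, Us, Es, hN, hB, hL, hU, hE, h⟩ := hP.last
  have h' : ∀ v xs, (∃ y, P v (Fin.snoc xs y)) ↔ (B v xs ∧ ∃ z, (∀ f ∈ Ls, f v xs < z) ∧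
        (∀ f ∈ Us, z < f v xs) ∧ (∀ f ∈ Es, z = f v xs)) := by
    intro v xs
    simp only [h]
    constructor
    · rintro ⟨y, h1, h2⟩
      exact ⟨h1, N • y, h2⟩
    · rintro ⟨h1, z, h2⟩
      obtain ⟨y, rfl⟩ := hdiv N hN z
      exact ⟨y, h1, h2⟩
  rcases Es with _ | ⟨e, Es⟩
  · -- no equation
    have h1 : Basic (fun v xs => ∀ f ∈ Ls, ∀ g ∈ Us, f v xs < g v xs) :=
      Basic.forall_list Ls _ fun f hf => Basic.forall_list Us _ fun g hg => atom_lt (hL f hf) (hU g hg)
    refine (hB.and' h1).congr fun v xs => ?_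
    rw [h']
    refine and_congr_right fun _ => ?_
    constructor
    · intro h2
      obtain ⟨z, hz1, hz2⟩ := exists_between_lists hdiv (Ls.map fun f => f v xs)
        (Us.map fun f => f v xs) (by
          intro a ha b hb
          obtain ⟨f, hf, rfl⟩ := List.mem_map.1 ha
          obtain ⟨g, hg, rfl⟩ := List.mem_map.1 hb
          exact h2 f hf g hg)
      exact ⟨z, fun f hf => hz1 _ (List.mem_map.2 ⟨f, hf, rfl⟩),
        fun f hf => hz2 _ (List.mem_map.2 ⟨f, hf, rfl⟩), by simp⟩
    · rintro ⟨z, hz1, hz2, _⟩ f hf g hg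
      exact (hz1 f hf).trans (hz2 g hg)
  · have he : IsForm e := hE e (by simp)
    have h1 : Basic (fun v xs => ∀ f ∈ Ls, f v xs < e v xs) :=
      Basic.forall_list Ls _ fun f hf => atom_lt (hL f hf) he
    have h2 : Basic (fun v xs => ∀ f ∈ Us, e v xs < f v xs) :=
      Basic.forall_list Us _ fun f hf => atom_lt he (hU f hf)
    have h3 : Basic (fun v xs => ∀ f ∈ Es, e v xs = f v xs) :=
      Basic.forall_list Es _ fun f hf => atom_eq he (hE f (by simp [hf]))
    refine (hB.and' (h1.and' (h2.and' h3))).congr fun v xs => ?_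
    rw [h']
    refine and_congr_right fun _ => ?_
    constructor
    · rintro ⟨h4, h5, h6⟩
      exact ⟨e v xs, h4, h5, by simpa using h6⟩
    · rintro ⟨z, h4, h5, h6⟩
      have h7 : z = e v xs := h6 e (by simp)
      subst h7
      exact ⟨h4, h5, fun f hf => h6 f (by simp [hf])⟩

theorem Semi.ex [Nontrivial G] (hdiv : ∀ n : ℕ, 0 < n → ∀ x : G, ∃ y, n • y = x)
    {n : ℕ} {P : (α → G) → (Fin (n + 1) → G) → Prop} (hP : Semi P) :
    Semi (fun v xs => ∃ y, P v (Fin.snoc xs y)) := by
  induction hP with
  | false => exact Semi.false.congr fun v xs => by simp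
  | or h1 _ ih => exact (Semi.or (h1.ex hdiv) ih).congr fun v xs => by
                    simp only [exists_or]

/-- quantifier elimination -/
theorem semi_of_formula [Nontrivial G] (hdiv : ∀ n : ℕ, 0 < n → ∀ x : G, ∃ y, n • y = x)
    {n : ℕ} (φ : LOG.BoundedFormula α n) :
    Semi (fun (v : α → G) (xs : Fin n → G) => @Language.BoundedFormula.Realize LOG G (groupStr G) _ _ φ v xs) := by
  letI : LOG.Structure G := groupStr G
  have hterm : ∀ {m : ℕ} (t : LOG.Term (α ⊕ Fin m)),
      IsForm (fun (v : α → G) (xs : Fin m → G) => t.realize (Sum.elim v xs)) := by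
    intro m t
    induction t with
    | var i =>
      rcases i with i | i
      · exact IsForm.var1 i
      · exact IsForm.var2 i
    | func f ts ih =>
      cases f with
      | zero => exact IsForm.const 0
      | neg => exact (ih 0).neg
      | add => exact (ih 0).add (ih 1)
  induction φ with
  | falsum => exact Semi.false
  | equal t₁ t₂ => exact (atom_eq (hterm t₁) (hterm t₂)).semi
  | rel R ts =>
    cases R
    exact (atom_lt (hterm (ts 0)) (hterm (ts 1))).semi
  | imp _ _ ih1 ih2 =>
    refine (ih1.not.or' ih2).congr fun v xs => ?_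
    rw [Language.BoundedFormula.realize_imp]; tauto
  | all φ ih =>
    refine ((ih.not.ex hdiv).not).congr fun v xs => ?_
    rw [Language.BoundedFormula.realize_all]
    push Not
    rfl

/-- a convex subgroup other than `0` and `G` is not definable in a divisible ordered group -/
theorem not_definable_convex (hdiv : ∀ n : ℕ, 0 < n → ∀ x : G, ∃ y, n • y = x) (H : AddSubgroup G)
    (hconv : (H : Set G).OrdConnected) (h0 : H ≠ ⊥) (h1 : H ≠ ⊤) :
    ¬ GroupDefinable G (H : Set G) := by
  letI : LOG.Structure G := groupStr G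
  intro hdef
  have hnt : Nontrivial G := by
    by_contra hn
    rw [not_nontrivial_iff_subsingleton] at hn
    exact h0 (Subsingleton.elim _ _)
  obtain ⟨φ, hφ⟩ := Set.definable_iff_exists_formula_sum.1 hdef
  have hs := semi_of_formula hdiv φ
  -- breakpoints
  have key : ∀ {P : ((Set.univ : Set G) ⊕ Fin 1 → G) → (Fin 0 → G) → Prop}, Semi P →
      ∃ T : Finset G, ∀ x y : G, x < y → (∀ t ∈ T, ¬ (x ≤ t ∧ t ≤ y)) →
        (P (Sum.elim (fun a => (a : G)) fun _ => x) default ↔
          P (Sum.elim (fun a => (a : G)) fun _ => y) default) := by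
    classical
    intro P hP
    have hform : ∀ {f : ((Set.univ : Set G) ⊕ Fin 1 → G) → (Fin 0 → G) → G}, IsForm f →
        ∃ (a : ℤ) (g : G), ∀ x : G, f (Sum.elim (fun a => (a : G)) fun _ => x) default = a • x + g := by
      intro f hf
      induction hf with
      | var1 i =>
        rcases i with i | i
        · exact ⟨0, i, fun x => by simp⟩
        · exact ⟨1, 0, fun x => by simp⟩
      | var2 i => exact Fin.elim0 i
      | const g => exact ⟨0, g, fun x => by simp⟩
      | neg _ ih =>
        obtain ⟨a, g, h⟩ := ih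
        exact ⟨-a, -g, fun x => by beta_reduce; rw [h, neg_smul]; abel⟩
      | add _ _ ih1 ih2 =>
        obtain ⟨a, g, h⟩ := ih1
        obtain ⟨b, g', h'⟩ := ih2
        exact ⟨a + b, g + g', fun x => by beta_reduce; rw [h, h', add_smul]; abel⟩
    have hbreak : ∀ (a : ℤ) (g : G), ∃ T : Finset G, ∀ x y : G, x < y →
        (∀ t ∈ T, ¬ (x ≤ t ∧ t ≤ y)) → ((0 < a • x + g ↔ 0 < a • y + g) ∧
          (a • x + g = 0 ↔ a • y + g = 0)) := by
      intro a g
      by_cases ha : a = 0
      · exact ⟨∅, fun x y _ _ => by simp [ha]⟩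
      · obtain ⟨m, hm, hma⟩ : ∃ m : ℕ, 0 < m ∧ (a = m ∨ a = -m) := ⟨a.natAbs, by omega, by omega⟩
        rcases hma with rfl | rfl
        · obtain ⟨t, ht⟩ := hdiv m hm (-g)
          refine ⟨{t}, fun x y hxy h => ?_⟩
          have h2 := h t (by simp)
          rw [natCast_zsmul, natCast_zsmul]
          have e1 : ∀ z : G, 0 < m • z + g ↔ t < z := fun z => by
            rw [← neg_lt_iff_pos_add, ← ht, nsmul_lt_iff hm.ne']
          have e2 : ∀ z : G, m • z + g = 0 ↔ z = t := fun z => by
            rw [← eq_neg_iff_add_eq_zero, ← ht, nsmul_right_inj hm.ne']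
          rw [e1, e1, e2, e2]
          constructor
          · constructor
            · intro h3; exact h3.trans hxy
            · intro h3; by_contra h4; exact h2 ⟨not_lt.1 h4, h3.le⟩
          · constructor
            · rintro rfl; exact absurd ⟨le_rfl, hxy.le⟩ h2
            · rintro rfl; exact absurd ⟨hxy.le, le_rfl⟩ h2
        · obtain ⟨t, ht⟩ := hdiv m hm g
          refine ⟨{t}, fun x y hxy h => ?_⟩
          have h2 := h t (by simp)
          rw [neg_smul, neg_smul, natCast_zsmul, natCast_zsmul]
          have e1 : ∀ z : G, 0 < -(m • z) + g ↔ z < t := fun z => by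
            rw [neg_add_eq_sub, sub_pos, ← ht, nsmul_lt_iff hm.ne']
          have e2 : ∀ z : G, -(m • z) + g = 0 ↔ z = t := fun z => by
            rw [neg_add_eq_zero, ← ht, nsmul_right_inj hm.ne']
          rw [e1, e1, e2, e2]
          constructor
          · constructor
            · intro h3; by_contra h4; exact h2 ⟨h3.le, not_lt.1 h4⟩
            · intro h3; exact hxy.trans h3
          · constructor
            · rintro rfl; exact absurd ⟨le_rfl, hxy.le⟩ h2
            · rintro rfl; exact absurd ⟨hxy.le, le_rfl⟩ h2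
    have hatom : ∀ {P : ((Set.univ : Set G) ⊕ Fin 1 → G) → (Fin 0 → G) → Prop}, Atom P →
        ∃ T : Finset G, ∀ x y : G, x < y → (∀ t ∈ T, ¬ (x ≤ t ∧ t ≤ y)) →
          (P (Sum.elim (fun a => (a : G)) fun _ => x) default ↔
            P (Sum.elim (fun a => (a : G)) fun _ => y) default) := by
      intro P hP
      cases hP with
      | pos hf =>
        obtain ⟨a, g, h⟩ := hform hf
        obtain ⟨T, hT⟩ := hbreak a g
        exact ⟨T, fun x y hxy h' => by beta_reduce; rw [h, h]; exact (hT x y hxy h').1⟩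
      | eq hf =>
        obtain ⟨a, g, h⟩ := hform hf
        obtain ⟨T, hT⟩ := hbreak a g
        exact ⟨T, fun x y hxy h' => by beta_reduce; rw [h, h]; exact (hT x y hxy h').2⟩
    have hbasic : ∀ {P : ((Set.univ : Set G) ⊕ Fin 1 → G) → (Fin 0 → G) → Prop}, Basic P →
        ∃ T : Finset G, ∀ x y : G, x < y → (∀ t ∈ T, ¬ (x ≤ t ∧ t ≤ y)) →
          (P (Sum.elim (fun a => (a : G)) fun _ => x) default ↔
            P (Sum.elim (fun a => (a : G)) fun _ => y) default) := by
      intro P hP
      induction hP with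
      | true => exact ⟨∅, fun x y _ _ => Iff.rfl⟩
      | and h1 _ ih =>
        obtain ⟨T, hT⟩ := hatom h1
        obtain ⟨T', hT'⟩ := ih
        exact ⟨T ∪ T', fun x y hxy h => and_congr
          (hT x y hxy fun t ht => h t (Finset.mem_union_left _ ht))
          (hT' x y hxy fun t ht => h t (Finset.mem_union_right _ ht))⟩
    induction hP with
    | false => exact ⟨∅, fun x y _ _ => Iff.rfl⟩
    | or h1 _ ih =>
      obtain ⟨T, hT⟩ := hbasic h1
      obtain ⟨T', hT'⟩ := ih
      exact ⟨T ∪ T', fun x y hxy h => or_congr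
        (hT x y hxy fun t ht => h t (Finset.mem_union_left _ ht))
        (hT' x y hxy fun t ht => h t (Finset.mem_union_right _ ht))⟩
  obtain ⟨T, hT⟩ := key hs
  have hmem : ∀ x : G, (Language.BoundedFormula.Realize φ
      (Sum.elim (fun a : (Set.univ : Set G) => (a : G)) fun _ => x) default) ↔ x ∈ H := by
    intro x
    exact (Set.ext_iff.1 hφ (fun _ => x)).symm
  -- choose x ∈ H above all breakpoints in H, and y ∉ H below all positive breakpoints outside H
  classical
  obtain ⟨e, heH, he⟩ : ∃ e ∈ H, 0 < e := by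
    rcases H.bot_or_exists_ne_zero with h | ⟨x, hx, hx0⟩
    · exact absurd h h0
    · rcases lt_or_gt_of_ne hx0 with h | h
      · exact ⟨-x, H.neg_mem hx, neg_pos.2 h⟩
      · exact ⟨x, hx, h⟩
  obtain ⟨g, hgH, hg⟩ : ∃ g, g ∉ H ∧ 0 < g := by
    obtain ⟨x, hx⟩ : ∃ x, x ∉ H := by
      by_contra hc
      push Not at hc
      exact h1 (eq_top_iff.2 fun x _ => hc x)
    have hx0 : x ≠ 0 := by rintro rfl; exact hx H.zero_mem
    rcases lt_or_gt_of_ne hx0 with h | h
    · exact ⟨-x, fun h' => hx (by simpa using H.neg_mem h'), neg_pos.2 h⟩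
    · exact ⟨x, hx, h⟩
  set x : G := e + ∑ t ∈ T.filter (· ∈ H), |t| with hxdef
  have hxH : x ∈ H := by
    refine H.add_mem heH (H.sum_mem fun t ht => ?_)
    have := (Finset.mem_filter.1 ht).2
    rcases abs_choice t with h | h <;> rw [h]
    · exact this
    · exact H.neg_mem this
  have hx0 : 0 < x := add_pos_of_pos_of_nonneg he (Finset.sum_nonneg fun t _ => abs_nonneg t)
  have hxT : ∀ t ∈ T, t ∈ H → t < x := by
    intro t ht htH
    have h2 : |t| ≤ ∑ t ∈ T.filter (· ∈ H), |t| :=
      Finset.single_le_sum (f := fun t => |t|) (fun t _ => abs_nonneg t)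
        (Finset.mem_filter.2 ⟨ht, htH⟩)
    calc t ≤ |t| := le_abs_self t
      _ ≤ ∑ t ∈ T.filter (· ∈ H), |t| := h2
      _ < x := lt_add_of_pos_left _ he
  obtain ⟨m, hm, hmin⟩ := Finset.exists_min_image (insert g (T.filter fun t => 0 < t ∧ t ∉ H)) id
    ⟨g, Finset.mem_insert_self _ _⟩
  have hmH : m ∉ H ∧ 0 < m := by
    rcases Finset.mem_insert.1 hm with rfl | h
    · exact ⟨hgH, hg⟩
    · exact ⟨(Finset.mem_filter.1 h).2.2, (Finset.mem_filter.1 h).2.1⟩
  obtain ⟨y, hy⟩ := hdiv 2 two_pos m
  rw [two_nsmul] at hy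
  have hyH : y ∉ H := fun h => hmH.1 (by rw [← hy]; exact H.add_mem h h)
  have hy0 : 0 < y := by
    by_contra hc
    push Not at hc
    have : y + y ≤ 0 := add_nonpos hc hc
    rw [hy] at this
    exact absurd hmH.2 (not_lt.2 this)
  have hym : y < m := by rw [← hy]; exact lt_add_of_pos_left _ hy0
  have hxy : x < y := by
    by_contra hc
    push Not at hc
    exact hyH (hconv.out H.zero_mem hxH ⟨hy0.le, hc⟩)
  have h2 := hT x y hxy (by
    rintro t ht ⟨h3, h4⟩
    by_cases htH : t ∈ H
    · exact absurd h3 (not_le.2 (hxT t ht htH))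
    · have h5 : m ≤ t := hmin t (Finset.mem_insert_of_mem (Finset.mem_filter.2
        ⟨ht, lt_of_lt_of_le hx0 h3, htH⟩))
      exact absurd h4 (not_le.2 (lt_of_lt_of_le hym h5)))
  rw [hmem, hmem] at h2
  exact hyH (h2.1 hxH)

end QE

end Pool.Agent.Lib.MPd02918
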