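import Mathlib
import Pool.Agent.Lib.MPd02918.Defs
import Pool.Agent.Lib.MPd02918.QE
import Pool.Agent.Lib.MPd02918.Field

set_option autoImplicit false
open FirstOrder

/-!
The definable convex valuation rings of the field `K`, and their images in the value group.
-/

namespace Pool.Agent.Lib.MPd02918

/-- the convex subgroup `Φ_K(O)`, for a convex valuation ring `O` -/
def phiGroup {K : Type*} [Field K] [LinearOrder K] [IsStrictOrderedRing K] (O : ValuationSubring K) :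
    AddSubgroup (ValueGroup K) where
  carrier := Phi K O
  zero_mem' := ⟨1, one_ne_zero, O.one_mem, by rw [inv_one]; exact O.one_mem, by simp⟩
  add_mem' := by
    rintro a b ⟨u, hu, h1, h2, h3⟩ ⟨w, hw, h4, h5, h6⟩
    refine ⟨u * w, mul_ne_zero hu hw, O.mul_mem _ _ h1 h4, ?_, ?_⟩
    · rw [mul_inv]; exact O.mul_mem _ _ h2 h5
    · rw [AddUnits.val_add, h3, h6, ArchimedeanClass.mk_mul]
  neg_mem' := by
    rintro a ⟨u, hu, h1, h2, h3⟩
    refine ⟨u⁻¹, inv_ne_zero hu, h2, by rw [inv_inv]; exact h1, ?_⟩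
    have h4 : (a : ArchimedeanClass K) + ((-a : ValueGroup K) : ArchimedeanClass K) = 0 := by
      rw [← AddUnits.val_add]; simp
    have h5 : (a : ArchimedeanClass K) + ArchimedeanClass.mk u⁻¹ = 0 := by
      rw [h3, ← ArchimedeanClass.mk_mul, mul_inv_cancel₀ hu, ArchimedeanClass.mk_one]
    have h6 : (a : ArchimedeanClass K) ≠ ⊤ := by
      rw [h3, Ne, ArchimedeanClass.mk_eq_top_iff]; exact hu
    exact ArchimedeanClass.add_left_cancel_of_ne_top h6 (h4.trans h5.symm)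

theorem exists_rep {K : Type*} [Field K] [LinearOrder K] [IsStrictOrderedRing K]
    (g : ValueGroup K) : ∃ w : K, w ≠ 0 ∧ (g : ArchimedeanClass K) = ArchimedeanClass.mk w := by
  obtain ⟨w, hw⟩ := ArchimedeanClass.mk_surjective K (g : ArchimedeanClass K)
  refine ⟨w, ?_, hw.symm⟩
  rintro rfl
  have h1 : (g : ArchimedeanClass K) + ((-g : ValueGroup K) : ArchimedeanClass K) = 0 := by
    rw [← AddUnits.val_add]; simp
  rw [← hw, ArchimedeanClass.mk_zero, top_add] at h1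
  exact ArchimedeanClass.top_ne_zero h1

theorem phi_ordConnected {K : Type*} [Field K] [LinearOrder K] [IsStrictOrderedRing K]
    (O : ValuationSubring K) (hO : (O : Set K).OrdConnected) :
    (phiGroup O : Set (ValueGroup K)).OrdConnected := by
  have habs : ∀ z w : K, w ∈ O → |z| ≤ |w| → z ∈ O := by
    intro z w hw h
    have h1 : |w| ∈ O := by
      rcases abs_choice w with h2 | h2 <;> rw [h2]
      · exact hw
      · exact O.neg_mem _ hw
    exact hO.out (O.neg_mem _ h1) h1 (abs_le.1 h)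
  have hn : ∀ n : ℕ, (n : K) ∈ O := fun n => natCast_mem O n
  constructor
  rintro a ⟨u, hu, h1, h2, h3⟩ b ⟨w, hw, h4, h5, h6⟩ g ⟨hag, hgb⟩
  obtain ⟨z, hz, hgz⟩ := exists_rep g
  have hag' : (a : ArchimedeanClass K) ≤ g := hag
  have hgb' : (g : ArchimedeanClass K) ≤ b := hgb
  rw [h3, hgz] at hag'
  rw [h6, hgz] at hgb'
  obtain ⟨n, hn1⟩ := ArchimedeanClass.mk_le_mk.1 hag'
  obtain ⟨m, hm1⟩ := ArchimedeanClass.mk_le_mk.1 hgb'
  rw [nsmul_eq_mul] at hn1 hm1
  refine ⟨z, hz, ?_, ?_, hgz⟩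
  · apply habs z ((n : K) * u) (O.mul_mem _ _ (hn n) h1)
    rw [abs_mul, Nat.abs_cast]; exact hn1
  · apply habs z⁻¹ ((m : K) * w⁻¹) (O.mul_mem _ _ (hn m) h5)
    rw [abs_mul, Nat.abs_cast, abs_inv, abs_inv]
    have hz' : 0 < |z| := abs_pos.2 hz
    have hw' : 0 < |w| := abs_pos.2 hw
    rw [← div_eq_mul_inv, inv_eq_one_div, div_le_div_iff₀ hz' hw', one_mul]
    exact hm1

namespace Setup

variable {L : Type*} [Field L] [LinearOrder L] [IsStrictOrderedRing L] {I : Type*} [LinearOrder I]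
  (S : Setup L I)

theorem cut_iff (i : I) {c : L} (hc : c ∈ S.F) : |c| < S.t i ↔ ∃ n : ℕ, |c| ≤ S.x i ^ n := by
  constructor
  · intro h
    by_contra hcon
    push Not at hcon
    exact absurd h (not_lt.2 (S.t_lt i c hc hcon).le)
  · rintro ⟨n, hn⟩
    exact S.t_gt i c hc n hn

/-- the convex valuation ring of `K` cut out by `t i` -/
def O (i : I) : ValuationSubring S.K where
  carrier := {z | ∃ c ∈ S.F, |c| < S.t i ∧ |(z : L)| ≤ |c|}
  one_mem' := ⟨1, S.F.one_mem, by simpa using S.one_lt_t i, by simp⟩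
  zero_mem' := ⟨1, S.F.one_mem, by simpa using S.one_lt_t i, by simp⟩
  mul_mem' := by
    rintro a b ⟨c, hc, hct, hac⟩ ⟨d, hd, hdt, hbd⟩
    rw [S.cut_iff i hc] at hct
    rw [S.cut_iff i hd] at hdt
    obtain ⟨n, hn⟩ := hct
    obtain ⟨m, hm⟩ := hdt
    refine ⟨c * d, S.F.mul_mem hc hd, (S.cut_iff i (S.F.mul_mem hc hd)).2 ⟨n + m, ?_⟩, ?_⟩
    · rw [abs_mul, pow_add]
      exact mul_le_mul hn hm (abs_nonneg _) (pow_nonneg (S.x_pos i).le _)
    · rw [abs_mul]
      simp only [Subfield.coe_mul, abs_mul]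
      exact mul_le_mul hac hbd (abs_nonneg _) (abs_nonneg _)
  add_mem' := by
    rintro a b ⟨c, hc, hct, hac⟩ ⟨d, hd, hdt, hbd⟩
    rw [S.cut_iff i hc] at hct
    rw [S.cut_iff i hd] at hdt
    obtain ⟨n, hn⟩ := hct
    obtain ⟨m, hm⟩ := hdt
    have habsmem : ∀ e ∈ S.F, |e| ∈ S.F := by
      intro e he
      rcases abs_choice e with h2 | h2 <;> rw [h2]
      · exact he
      · exact S.F.neg_mem he
    have hmem := S.F.add_mem (habsmem c hc) (habsmem d hd)
    have hnn : 0 ≤ |c| + |d| := by positivity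
    refine ⟨|c| + |d|, hmem, (S.cut_iff i hmem).2 ⟨1 + (n + m), ?_⟩, ?_⟩
    · rw [abs_of_nonneg hnn]
      have h2 : (2 : L) ≤ S.x i := by exact_mod_cast (S.x_big i 2).le
      have hx1 := (S.one_lt_x i).le
      calc |c| + |d| ≤ S.x i ^ (n + m) + S.x i ^ (n + m) :=
            add_le_add (hn.trans (pow_le_pow_right₀ hx1 (by omega)))
              (hm.trans (pow_le_pow_right₀ hx1 (by omega)))
        _ = 2 * S.x i ^ (n + m) := by ring
        _ ≤ S.x i * S.x i ^ (n + m) :=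
            mul_le_mul_of_nonneg_right h2 (pow_nonneg (S.x_pos i).le _)
        _ = S.x i ^ (1 + (n + m)) := by ring
    · rw [abs_of_nonneg hnn]
      exact (abs_add_le _ _).trans (add_le_add hac hbd)
  neg_mem' := by
    rintro a ⟨c, hc, hct, hac⟩
    exact ⟨c, hc, hct, by simpa using hac⟩
  mem_or_inv_mem' := by
    intro z
    by_cases h : |(z : L)| ≤ 1
    · left
      exact ⟨1, S.F.one_mem, by simpa using S.one_lt_t i, by simpa using h⟩
    · right
      refine ⟨1, S.F.one_mem, by simpa using S.one_lt_t i, ?_⟩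
      push Not at h
      rw [Subfield.coe_inv, abs_inv, abs_one]
      exact inv_le_one_of_one_le₀ h.le

theorem mem_O {i : I} {z : S.K} : z ∈ S.O i ↔ ∃ c ∈ S.F, |c| < S.t i ∧ |(z : L)| ≤ |c| := Iff.rfl

theorem O_ordConnected (i : I) : (S.O i : Set S.K).OrdConnected := by
  constructor
  rintro a ⟨c, hc, hct, hac⟩ b ⟨d, hd, hdt, hbd⟩ z ⟨haz, hzb⟩
  have haz' : (a : L) ≤ z := haz
  have hzb' : (z : L) ≤ b := hzb
  have h1 : |(z : L)| ≤ max |(a : L)| |(b : L)| := abs_le_max_abs_abs haz' hzb'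
  rcases le_total |(a : L)| |(b : L)| with h | h
  · rw [max_eq_right h] at h1
    exact ⟨d, hd, hdt, h1.trans hbd⟩
  · rw [max_eq_left h] at h1
    exact ⟨c, hc, hct, h1.trans hac⟩

/-- `t i` as an element of `K` -/
def tK (i : I) : S.K := ⟨S.t i, S.t_mem_K i⟩

/-- `x i` as an element of `K` -/
def xK (i : I) : S.K := ⟨S.x i, S.F_le_K (S.x_mem i)⟩

theorem t_notMem_O (i : I) : S.tK i ∉ S.O i := by
  rintro ⟨c, hc, hct, h⟩
  have h1 : |S.t i| ≤ |c| := h
  rw [abs_of_pos (S.t_pos i)] at h1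
  exact absurd hct (not_lt.2 h1)

theorem x_mem_O (i : I) : S.xK i ∈ S.O i :=
  ⟨S.x i, S.x_mem i, by rw [abs_of_pos (S.x_pos i)]; exact S.x_lt_t i, le_rfl⟩

theorem x_notMem_O {i j : I} (h : i < j) : S.xK j ∉ S.O i := by
  rintro ⟨c, hc, hct, h1⟩
  have h2 : |S.x j| ≤ |c| := h1
  rw [abs_of_pos (S.x_pos j)] at h2
  exact absurd ((S.t_lt_x h).trans_le h2) (not_lt.2 hct.le)

theorem O_injective : Function.Injective S.O := by
  intro i j hij
  rcases lt_trichotomy i j with h | h | h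
  · exact absurd (hij ▸ S.x_mem_O j) (S.x_notMem_O h)
  · exact h
  · exact absurd (hij ▸ S.x_mem_O i) (S.x_notMem_O h)

theorem O_ne_top (i : I) : S.O i ≠ ⊤ := by
  intro h
  exact S.t_notMem_O i (h ▸ ValuationSubring.mem_top _)

theorem mk_eq_iff (a b : S.K) : ArchimedeanClass.mk a = ArchimedeanClass.mk b ↔
    ArchimedeanClass.mk (a : L) = ArchimedeanClass.mk (b : L) := by
  rw [ArchimedeanClass.mk_eq_mk, ArchimedeanClass.mk_eq_mk]
  rfl

theorem phi_ne_bot (i : I) : phiGroup (S.O i) ≠ ⊥ := by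
  intro h
  have hx0 : S.xK i ≠ 0 := by
    intro h; exact (S.x_pos i).ne' (congrArg Subtype.val h)
  have hxinv : (S.xK i)⁻¹ ∈ S.O i := by
    refine ⟨1, S.F.one_mem, by simpa using S.one_lt_t i, ?_⟩
    rw [Subfield.coe_inv, abs_inv, abs_one]
    apply inv_le_one_of_one_le₀
    show 1 ≤ |S.x i|
    rw [abs_of_pos (S.x_pos i)]; exact (S.one_lt_x i).le
  let g : ValueGroup S.K := ⟨ArchimedeanClass.mk (S.xK i), ArchimedeanClass.mk (S.xK i)⁻¹,
    by rw [← ArchimedeanClass.mk_mul, mul_inv_cancel₀ hx0, ArchimedeanClass.mk_one],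
    by rw [← ArchimedeanClass.mk_mul, inv_mul_cancel₀ hx0, ArchimedeanClass.mk_one]⟩
  have hg : g ∈ phiGroup (S.O i) := ⟨S.xK i, hx0, S.x_mem_O i, hxinv, rfl⟩
  rw [h, AddSubgroup.mem_bot] at hg
  have h1 : ArchimedeanClass.mk (S.xK i) = ArchimedeanClass.mk 1 := by
    have := congrArg AddUnits.val hg
    rw [ArchimedeanClass.mk_one]; exact this
  obtain ⟨-, ⟨n, hn⟩⟩ := ArchimedeanClass.mk_eq_mk.1 h1
  have h2 : |S.x i| ≤ n := by
    have h3 : |S.x i| ≤ ((n • |(1 : S.K)| : S.K) : L) := hn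
    have h4 : ((n • |(1 : S.K)| : S.K) : L) = n := by simp
    rwa [h4] at h3
  rw [abs_of_pos (S.x_pos i)] at h2
  exact absurd (S.x_big i n) (not_lt.2 h2)

theorem phi_ne_top (i : I) : phiGroup (S.O i) ≠ ⊤ := by
  intro h
  have ht0 : S.tK i ≠ 0 := by
    intro h; exact (S.t_pos i).ne' (congrArg Subtype.val h)
  let g : ValueGroup S.K := ⟨ArchimedeanClass.mk (S.tK i), ArchimedeanClass.mk (S.tK i)⁻¹,
    by rw [← ArchimedeanClass.mk_mul, mul_inv_cancel₀ ht0, ArchimedeanClass.mk_one],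
    by rw [← ArchimedeanClass.mk_mul, inv_mul_cancel₀ ht0, ArchimedeanClass.mk_one]⟩
  have hg : g ∈ phiGroup (S.O i) := by rw [h]; trivial
  obtain ⟨u, hu, h1, h2, h3⟩ := hg
  have h3 : ArchimedeanClass.mk (S.tK i) = ArchimedeanClass.mk u := h3
  obtain ⟨-, ⟨n, hn⟩⟩ := ArchimedeanClass.mk_eq_mk.1 h3
  obtain ⟨c, hc, hct, huc⟩ := h1
  have hnmem : (n : S.K) ∈ S.O i := natCast_mem (S.O i) n
  have hmem : (n : S.K) * u ∈ S.O i := (S.O i).mul_mem _ _ hnmem ⟨c, hc, hct, huc⟩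
  obtain ⟨d, hd, hdt, hud⟩ := hmem
  apply S.t_notMem_O i
  refine ⟨d, hd, hdt, le_trans ?_ hud⟩
  have h4 : |((S.tK i : S.K) : L)| ≤ ((n • |u| : S.K) : L) := hn
  refine h4.trans (le_of_eq ?_)
  rw [nsmul_eq_mul]
  have h5 : ((|u| : S.K) : L) = |(u : L)| := rfl
  rw [Subfield.coe_mul, Subfield.coe_mul, abs_mul, h5]
  simp

theorem divisible (n : ℕ) (hn : 0 < n) (g : ValueGroup S.K) : ∃ h : ValueGroup S.K, n • h = g := by
  obtain ⟨z, hz, hgz⟩ := exists_rep g
  have hz' : (z : L) ≠ 0 := fun h => hz (Subtype.ext h)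
  obtain ⟨w, hw, hw0, hwz⟩ := S.exists_root z.2 hz' hn
  have hw0' : (⟨w, hw⟩ : S.K) ≠ 0 := fun h => hw0 (congrArg Subtype.val h)
  refine ⟨⟨ArchimedeanClass.mk (⟨w, hw⟩ : S.K), ArchimedeanClass.mk (⟨w, hw⟩ : S.K)⁻¹,
    by rw [← ArchimedeanClass.mk_mul, mul_inv_cancel₀ hw0', ArchimedeanClass.mk_one],
    by rw [← ArchimedeanClass.mk_mul, inv_mul_cancel₀ hw0', ArchimedeanClass.mk_one]⟩, ?_⟩
  apply AddUnits.ext
  rw [AddUnits.val_nsmul_eq_nsmul_val, hgz]
  show n • ArchimedeanClass.mk (⟨w, hw⟩ : S.K) = _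
  rw [← ArchimedeanClass.mk_pow, S.mk_eq_iff]
  exact hwz

theorem not_groupDefinable (i : I) : ¬ GroupDefinable (ValueGroup S.K) (Phi S.K (S.O i)) :=
  not_definable_convex S.divisible (phiGroup (S.O i)) (phi_ordConnected _ (S.O_ordConnected i))
    (S.phi_ne_bot i) (S.phi_ne_top i)

theorem fieldDefinable (i : I) : FieldDefinable S.K (S.O i : Set S.K) := by
  letI : LOR.Structure S.K := ringStr S.K
  rw [FieldDefinable, Set.definable_iff_exists_formula_sum]
  let V := (Set.univ : Set S.K) ⊕ Fin 1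
  let c : LOR.Term (V ⊕ Fin 2) := Language.Term.var (Sum.inr 0)
  let y : LOR.Term (V ⊕ Fin 2) := Language.Term.var (Sum.inr 1)
  let t : LOR.Term (V ⊕ Fin 2) := Language.Term.var (Sum.inl (Sum.inl ⟨S.tK i, trivial⟩))
  let z : LOR.Term (V ⊕ Fin 2) := Language.Term.var (Sum.inl (Sum.inr 0))
  let add : LOR.Term (V ⊕ Fin 2) → LOR.Term (V ⊕ Fin 2) → LOR.Term (V ⊕ Fin 2) :=
    fun a b => Language.Term.func (L := LOR) RingFun.add ![a, b]
  let mul : LOR.Term (V ⊕ Fin 2) → LOR.Term (V ⊕ Fin 2) → LOR.Term (V ⊕ Fin 2) :=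
    fun a b => Language.Term.func (L := LOR) RingFun.mul ![a, b]
  let neg : LOR.Term (V ⊕ Fin 2) → LOR.Term (V ⊕ Fin 2) :=
    fun a => Language.Term.func (L := LOR) RingFun.neg ![a]
  let one : LOR.Term (V ⊕ Fin 2) := Language.Term.func (L := LOR) RingFun.one ![]
  let lt : LOR.Term (V ⊕ Fin 2) → LOR.Term (V ⊕ Fin 2) → LOR.BoundedFormula V 2 :=
    fun a b => Language.BoundedFormula.rel (L := LOR) LtRel.lt ![a, b]
  let eqn : LOR.BoundedFormula V 2 :=
    Language.BoundedFormula.equal (add (mul (mul c c) c) (mul (mul y y) y)) one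
  let ψ : LOR.BoundedFormula V 2 := eqn ⊓ (lt c t ⊓ (∼(lt z (neg c)) ⊓ ∼(lt c z)))
  let φ : LOR.Formula V := ψ.ex.ex
  refine ⟨φ, ?_⟩
  ext v
  have key : φ.Realize (Sum.elim (fun a : (Set.univ : Set S.K) => (a : S.K)) v) ↔
      ∃ c y : S.K, c * c * c + y * y * y = 1 ∧ c < S.tK i ∧ ¬ (v 0 < - c) ∧ ¬ (c < v 0) := by
    simp only [φ, Language.Formula.Realize, Language.BoundedFormula.realize_ex, ψ,
      Language.BoundedFormula.realize_inf, Language.BoundedFormula.realize_not]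
    rfl
  refine Iff.trans ?_ key.symm
  show v 0 ∈ S.O i ↔ _
  rw [S.mem_O]
  constructor
  · rintro ⟨c, hc, hct, hvc⟩
    have hc' : |c| ∈ S.F := by
      rcases abs_choice c with h2 | h2 <;> rw [h2]
      · exact hc
      · exact S.F.neg_mem hc
    obtain ⟨hcK, y, hy, hcy⟩ := S.mem_F_iff.1 hc'
    refine ⟨⟨|c|, hcK⟩, ⟨y, hy⟩, ?_, hct, ?_, ?_⟩
    · apply Subtype.ext
      show |c| * |c| * |c| + y * y * y = 1
      linear_combination hcy
    · rw [not_lt]
      exact (abs_le.1 hvc).1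
    · rw [not_lt]
      exact (abs_le.1 hvc).2
  · rintro ⟨c, y, hcy, hct, h1, h2⟩
    rw [not_lt] at h1 h2
    have h1' : -(c : L) ≤ (v 0 : L) := h1
    have h2' : (v 0 : L) ≤ (c : L) := h2
    have h3 : |(v 0 : L)| ≤ c := abs_le.2 ⟨h1', h2'⟩
    have h4 : 0 ≤ (c : L) := (abs_nonneg _).trans h3
    refine ⟨(c : L), S.mem_F_iff.2 ⟨c.2, y, y.2, ?_⟩, ?_, ?_⟩
    · have := congrArg Subtype.val hcy
      simp only [Subfield.coe_add, Subfield.coe_mul, Subfield.coe_one] at this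
      linear_combination this
    · rw [abs_of_nonneg h4]; exact hct
    · rw [abs_of_nonneg h4]; exact h3

end Setup

end Pool.Agent.Lib.MPd02918
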