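import Mathlib
import Pool.Agent.Lib.MPd02918.Field

set_option autoImplicit false
open Filter

/-!
Existence of a `Setup` over any infinite linearly ordered index set, by two ultrapowers.
-/

universe u

namespace Pool.Agent.Lib.MPd02918

/-- an ultrafilter on finite sets containing all sets `{S | a ∈ S}` -/
noncomputable def fine (A : Type u) : Ultrafilter (Finset A) := Ultrafilter.of atTop

theorem fine_mem {A : Type u} (a : A) : ∀ᶠ S in (fine A : Filter (Finset A)), a ∈ S := by
  have h : ∀ᶠ S in (atTop : Filter (Finset A)), a ∈ S := by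
    filter_upwards [eventually_ge_atTop ({a} : Finset A)] with S hS
    exact hS (Finset.mem_singleton_self a)
  exact Ultrafilter.of_le _ h

theorem fine_card {A : Type u} [Infinite A] (n : ℕ) :
    ∀ᶠ S in (fine A : Filter (Finset A)), n ≤ S.card := by
  obtain ⟨T, hT⟩ := Infinite.exists_subset_card_eq A n
  have h : ∀ᶠ S in (atTop : Filter (Finset A)), n ≤ S.card := by
    filter_upwards [eventually_ge_atTop T] with S hS
    rw [← hT]; exact Finset.card_le_card hS
  exact Ultrafilter.of_le _ h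

/-- positive elements have roots -/
def HasRoots (β : Type*) [Field β] [LinearOrder β] : Prop :=
  ∀ c : β, 0 < c → ∀ n : ℕ, 0 < n → ∃ d : β, 0 < d ∧ d ^ n = c

theorem hasRoots_real : HasRoots ℝ := fun c hc n hn =>
  ⟨c ^ ((n : ℝ)⁻¹), Real.rpow_pos_of_pos hc _, Real.rpow_inv_natCast_pow hc.le hn.ne'⟩

theorem hasRoots_germ {J : Type*} (U : Ultrafilter J) {β : Type*} [Field β] [LinearOrder β]
    [IsStrictOrderedRing β] (h : HasRoots β) : HasRoots (Germ (U : Filter J) β) := by
  classical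
  intro c
  refine Germ.inductionOn c (fun f => ?_)
  intro hf n hn
  rw [Germ.coe_pos] at hf
  refine ⟨((fun j => if hj : 0 < f j then (h (f j) hj n hn).choose else 1 : J → β) :
    Germ (U : Filter J) β), ?_, ?_⟩
  · rw [Germ.coe_pos]
    filter_upwards [hf] with j hj
    rw [dif_pos hj]
    exact (h (f j) hj n hn).choose_spec.1
  · rw [← Germ.coe_pow]
    apply Germ.coe_eq.2
    filter_upwards [hf] with j hj
    show (if hj : 0 < f j then (h (f j) hj n hn).choose else 1) ^ n = f j
    rw [dif_pos hj]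
    exact (h (f j) hj n hn).choose_spec.2

section first

variable (A : Type u) [LinearOrder A]

/-- first ultrapower -/
abbrev F1 : Type u := Germ (fine A : Filter (Finset A)) ℝ

variable {A}

/-- a rapidly growing family -/
noncomputable def x1 (a : A) : F1 A :=
  ((fun S => (2 : ℝ) ^ (S.card ^ (S.filter (· ≤ a)).card) : Finset A → ℝ) : F1 A)

theorem x1_big [Infinite A] (a : A) (n : ℕ) : (n : F1 A) < x1 a := by
  have h : ((fun _ => (n : ℝ) : Finset A → ℝ) : F1 A) = (n : F1 A) := rfl
  rw [← h, x1, Germ.coe_lt]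
  filter_upwards [fine_mem a, fine_card (A := A) (n + 1)] with S hS hn
  have h1 : 1 ≤ (S.filter (· ≤ a)).card :=
    Finset.card_pos.2 ⟨a, Finset.mem_filter.2 ⟨hS, le_rfl⟩⟩
  have h2 : n < 2 ^ (S.card ^ (S.filter (· ≤ a)).card) := by
    calc n < 2 ^ n := Nat.lt_two_pow_self
      _ ≤ 2 ^ (S.card ^ (S.filter (· ≤ a)).card) := by
          apply Nat.pow_le_pow_right two_pos
          calc n ≤ S.card := by omega
            _ = S.card ^ 1 := (pow_one _).symm
            _ ≤ S.card ^ (S.filter (· ≤ a)).card := Nat.pow_le_pow_right (by omega) h1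
  exact_mod_cast h2

theorem x1_lt [Infinite A] (a b : A) (hab : a < b) (n : ℕ) : x1 a ^ n < x1 b := by
  rw [x1, x1, ← Germ.coe_pow, Germ.coe_lt]
  filter_upwards [fine_mem a, fine_mem b, fine_card (A := A) (n + 1)] with S hSa hSb hn
  have h1 : (S.filter (· ≤ a)).card + 1 ≤ (S.filter (· ≤ b)).card := by
    apply Nat.succ_le_of_lt
    apply Finset.card_lt_card
    rw [Finset.ssubset_iff_of_subset]
    · exact ⟨b, Finset.mem_filter.2 ⟨hSb, le_rfl⟩, fun h => absurd (Finset.mem_filter.1 h).2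
        (not_le.2 hab)⟩
    · intro c hc
      rw [Finset.mem_filter] at hc ⊢
      exact ⟨hc.1, hc.2.trans hab.le⟩
  have h2 : (2 ^ (S.card ^ (S.filter (· ≤ a)).card)) ^ n < 2 ^ (S.card ^ (S.filter (· ≤ b)).card) := by
    rw [← pow_mul]
    apply Nat.pow_lt_pow_right one_lt_two
    have h3 : 0 < S.card ^ (S.filter (· ≤ a)).card := Nat.pow_pos (by omega)
    calc S.card ^ (S.filter (· ≤ a)).card * n
        < S.card ^ (S.filter (· ≤ a)).card * S.card := by
          apply Nat.mul_lt_mul_of_pos_left (by omega) h3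
      _ = S.card ^ ((S.filter (· ≤ a)).card + 1) := (pow_succ _ _).symm
      _ ≤ S.card ^ (S.filter (· ≤ b)).card := Nat.pow_le_pow_right (by omega) h1
  show ((2 : ℝ) ^ (S.card ^ (S.filter (· ≤ a)).card)) ^ n < (2 : ℝ) ^ (S.card ^ (S.filter (· ≤ b)).card)
  exact_mod_cast h2

end first

section second

variable (A : Type u) [LinearOrder A]

/-- second ultrapower -/
abbrev L1 : Type u := Germ (fine (F1 A) : Filter (Finset (F1 A))) (F1 A)

/-- the diagonal embedding -/
noncomputable def emb : F1 A →+* L1 A where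
  toFun c := ((fun _ => c : Finset (F1 A) → F1 A) : L1 A)
  map_one' := rfl
  map_zero' := rfl
  map_add' _ _ := rfl
  map_mul' _ _ := rfl

variable {A}

theorem emb_lt {a b : F1 A} : emb A a < emb A b ↔ a < b := by
  show ((fun _ => a : Finset (F1 A) → F1 A) : L1 A) < ((fun _ => b : Finset (F1 A) → F1 A) : L1 A) ↔ _
  rw [Germ.coe_lt]
  simp

theorem emb_le {a b : F1 A} : emb A a ≤ emb A b ↔ a ≤ b := by
  rw [← not_lt, ← not_lt, emb_lt]

theorem emb_abs (a : F1 A) : emb A |a| = |emb A a| := by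
  rcases le_total 0 a with h | h
  · rw [abs_of_nonneg h, abs_of_nonneg]
    rw [← map_zero (emb A), emb_le]; exact h
  · rw [abs_of_nonpos h, abs_of_nonpos, map_neg]
    rw [← map_zero (emb A), emb_le]; exact h

open Classical in
/-- the elements filling the cuts -/
noncomputable def t1 (a : A) : L1 A :=
  ((fun S => 1 + ∑ c ∈ S.filter (fun c => ∃ n : ℕ, |c| ≤ x1 a ^ n), |c| : Finset (F1 A) → F1 A) : L1 A)

theorem sum_bound [Infinite A] (a : A) (S : Finset (F1 A)) (hS : ∀ c ∈ S, ∃ n : ℕ, |c| ≤ x1 a ^ n) :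
    ∃ n : ℕ, 1 + ∑ c ∈ S, |c| ≤ x1 a ^ n := by
  classical
  have hx : (1 : F1 A) < x1 a := by simpa using x1_big a 1
  have hx2 : (2 : F1 A) < x1 a := by exact_mod_cast x1_big a 2
  induction S using Finset.induction_on with
  | empty => exact ⟨0, by simp⟩
  | insert c S hc ih =>
    obtain ⟨n, hn⟩ := hS c (Finset.mem_insert_self _ _)
    obtain ⟨m, hm⟩ := ih (fun d hd => hS d (Finset.mem_insert_of_mem hd))
    refine ⟨1 + (n + m), ?_⟩
    rw [Finset.sum_insert hc]
    calc 1 + (|c| + ∑ x ∈ S, |x|) = |c| + (1 + ∑ x ∈ S, |x|) := by ring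
      _ ≤ x1 a ^ (n + m) + x1 a ^ (n + m) :=
          add_le_add (hn.trans (pow_le_pow_right₀ hx.le (by omega)))
            (hm.trans (pow_le_pow_right₀ hx.le (by omega)))
      _ = 2 * x1 a ^ (n + m) := by ring
      _ ≤ x1 a * x1 a ^ (n + m) :=
          mul_le_mul_of_nonneg_right hx2.le (pow_nonneg (zero_lt_one.trans hx).le _)
      _ = x1 a ^ (1 + (n + m)) := by ring

/-- the setup -/
noncomputable def setup (A : Type u) [LinearOrder A] [Infinite A] : Setup (L1 A) A where
  F := (emb A).fieldRange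
  rootF := by
    rintro _ ⟨c, rfl⟩ hc0 n hn
    have h0 : 0 < c := by
      rw [← map_zero (emb A), emb_lt] at hc0; exact hc0
    obtain ⟨d, hd, hdn⟩ := hasRoots_germ (fine A) hasRoots_real c h0 n hn
    refine ⟨emb A d, ⟨d, rfl⟩, ?_, ?_⟩
    · rw [← map_zero (emb A), emb_lt]; exact hd
    · rw [← map_pow, hdn]
  rootL := hasRoots_germ (fine (F1 A)) (hasRoots_germ (fine A) hasRoots_real)
  x a := emb A (x1 a)
  x_mem a := ⟨x1 a, rfl⟩
  x_big a n := by
    rw [← map_natCast (emb A), emb_lt]; exact x1_big a n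
  x_lt a b hab n := by
    rw [← map_pow, emb_lt]; exact x1_lt a b hab n
  t a := t1 a
  t_gt := by
    classical
    rintro a _ ⟨c, rfl⟩ n hcn
    rw [← emb_abs, ← map_pow, emb_le] at hcn
    rw [← emb_abs]
    show ((fun _ => |c| : Finset (F1 A) → F1 A) : L1 A) < t1 a
    rw [t1, Germ.coe_lt]
    filter_upwards [fine_mem c] with S hS
    have h1 : |c| ≤ ∑ c ∈ S.filter (fun c => ∃ n : ℕ, |c| ≤ x1 a ^ n), |c| :=
      Finset.single_le_sum (f := fun c : F1 A => |c|) (fun d _ => abs_nonneg d)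
        (Finset.mem_filter.2 ⟨hS, n, hcn⟩)
    exact h1.trans_lt (lt_one_add _)
  t_lt := by
    classical
    rintro a _ ⟨c, rfl⟩ hc
    have hc' : ∀ n : ℕ, x1 a ^ n < |c| := by
      intro n
      have := hc n
      rwa [← emb_abs, ← map_pow, emb_lt] at this
    rw [← emb_abs]
    show t1 a < ((fun _ => |c| : Finset (F1 A) → F1 A) : L1 A)
    rw [t1, Germ.coe_lt]
    refine Eventually.of_forall fun S => ?_
    obtain ⟨n, hn⟩ := sum_bound a (S.filter (fun c => ∃ n : ℕ, |c| ≤ x1 a ^ n))
      (fun d hd => (Finset.mem_filter.1 hd).2)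
    exact hn.trans_lt (hc' n)

end second

end Pool.Agent.Lib.MPd02918
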